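import Pool.Agent.Run7.h822.MT.Vec
import Pool.Agent.Y116.MT.Trace

/-!
# The cohomology of an object of the heart in another realisation
-/

set_option autoImplicit false
set_option linter.unusedSectionVars false
set_option linter.unusedSimpArgs false
set_option backward.isDefEq.respectTransparency false
set_option backward.defeqAttrib.useBackward true

open CategoryTheory Limits MonoidalCategory Pretriangulated Triangulated TensorProduct

namespace Run7.h822.MT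

open Pool.Agent.Y116.MT Pool.Agent.V1178.MT

universe v u w w'

open Functor.LaxMonoidal

section Kap

variable {C : Type u} [Category.{v} C] [Preadditive C] [HasZeroObject C] [HasShift C ℤ]
  [∀ n : ℤ, (shiftFunctor C n).Additive] [Pretriangulated C] [MonoidalCategory C]
  [SymmetricCategory C] [TensorTriangulated C] {E : Type w} [Field E] (R : Realisation C E)

lemma mono_mu_iff {X X' Y Y' : C} (e : X ≅ X') (f : Y ≅ Y') :
    Mono (μ R.H X Y) ↔ Mono (μ R.H X' Y') := by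
  have h : μ R.H X Y ≫ R.H.map (e.hom ⊗ₘ f.hom) = (R.H.map e.hom ⊗ₘ R.H.map f.hom) ≫ μ R.H X' Y' :=
    (μ_natural R.H e.hom f.hom).symm
  constructor
  · intro h1
    have h2 : Mono ((R.H.map e.hom ⊗ₘ R.H.map f.hom) ≫ μ R.H X' Y') := by
      rw [← h]
      infer_instance
    have h3 : μ R.H X' Y' = inv (R.H.map e.hom ⊗ₘ R.H.map f.hom) ≫
        ((R.H.map e.hom ⊗ₘ R.H.map f.hom) ≫ μ R.H X' Y') := by
      rw [IsIso.inv_hom_id_assoc]
    rw [h3]
    infer_instance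
  · intro h1
    have h2 : Mono (μ R.H X Y ≫ R.H.map (e.hom ⊗ₘ f.hom)) := by
      rw [h]
      infer_instance
    exact mono_of_mono _ (R.H.map (e.hom ⊗ₘ f.hom))

/-- The structure map of the realisation is injective, by the Künneth formula. -/
lemma mono_mu (X Y : C) : Mono (μ R.H X Y) := by
  refine (mono_mu_iff R (X' := X) (Y' := Y) ((shiftFunctorZero C ℤ).app X)
    ((shiftFunctorZero' C (-0 : ℤ) (by simp)).app Y)).1 ?_
  have h1 : Function.Injective ((kunnethMap R.H X Y) ∘ₗ (DirectSum.lof E ℤ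
      (fun i : ℤ => (R.H.obj (X⟦i⟧) ⊗ R.H.obj (Y⟦-i⟧) : ModuleCat.{w} E)) 0)) := by
    rw [LinearMap.coe_comp]
    exact (R.kunneth X Y).1.comp (DirectSum.of_injective _)
  have h2 : Mono (μ R.H (X⟦(0 : ℤ)⟧) (Y⟦(-0 : ℤ)⟧) ≫ R.H.map (shiftTensorIso X Y 0).hom) := by
    rw [ModuleCat.mono_iff_injective]
    have key : ∀ x, ((kunnethMap R.H X Y) ∘ₗ (DirectSum.lof E ℤ
      (fun i : ℤ => (R.H.obj (X⟦i⟧) ⊗ R.H.obj (Y⟦-i⟧) : ModuleCat.{w} E)) 0)) x =
      (μ R.H (X⟦(0 : ℤ)⟧) (Y⟦(-0 : ℤ)⟧) ≫ R.H.map (shiftTensorIso X Y 0).hom).hom x := fun x =>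
      DirectSum.toModule_lof E (M := fun i : ℤ =>
        (R.H.obj (X⟦i⟧) ⊗ R.H.obj (Y⟦-i⟧) : ModuleCat.{w} E)) (φ := fun i : ℤ =>
        (μ R.H (X⟦i⟧) (Y⟦-i⟧) ≫ R.H.map (shiftTensorIso X Y i).hom).hom) 0 x
    intro a b hab
    apply h1
    rw [key, key]
    exact hab
  exact mono_of_mono _ (R.H.map (shiftTensorIso X Y 0).hom)

lemma mono_whiskerRight {V W U : ModuleCat.{w} E} (f : V ⟶ W) [Mono f] : Mono (f ▷ U) := by
  rw [ModuleCat.mono_iff_injective]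
  exact Module.Flat.rTensor_preserves_injective_linearMap f.hom
    ((ModuleCat.mono_iff_injective f).1 inferInstance)

lemma mono_kap (X Z : C) (n : ℕ) : Mono (kap R.H X Z n) := by
  induction n with
  | zero => simp only [kap]; infer_instance
  | succ n ih =>
    have h1 := mono_mu R (pw X Z n) Z
    have h2 := mono_whiskerRight (U := R.H.obj Z) (kap R.H X Z n)
    simp only [kap]
    exact mono_comp _ _

end Kap

section Sign

variable {C : Type u} [Category.{v} C] [MonoidalCategory C] [SymmetricCategory C]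
  [Preadditive C] [MonoidalPreadditive C]

lemma sign_iso {A B : C} (e : A ≅ B) {s : ℤ} (h : (β_ A A).hom = s • 𝟙 _) :
    (β_ B B).hom = s • 𝟙 _ := by
  have h1 : (e.hom ⊗ₘ e.hom) ≫ (β_ B B).hom = (β_ A A).hom ≫ (e.hom ⊗ₘ e.hom) :=
    BraidedCategory.braiding_naturality e.hom e.hom
  rw [← cancel_epi (e.hom ⊗ₘ e.hom), h1, h, Preadditive.zsmul_comp, Preadditive.comp_zsmul,
    Category.id_comp, Category.comp_id]

lemma sign_tensor {A B : C} {a b : ℤ} (hA : (β_ A A).hom = a • 𝟙 _)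
    (hB : (β_ B B).hom = b • 𝟙 _) : (β_ (A ⊗ B) (A ⊗ B)).hom = (a * b) • 𝟙 _ := by
  have h1 := SymmetricCategory.tensorμ_braid_swap A B
  rw [← cancel_epi (tensorμ A A B B), h1, hA, hB, MonoidalCategory.tensorHom_def, wl_zsmul,
    wr_zsmul, MonoidalCategory.whiskerLeft_id, id_whiskerRight, Preadditive.zsmul_comp,
    Preadditive.comp_zsmul, Category.id_comp, smul_smul, Preadditive.zsmul_comp,
    Preadditive.comp_zsmul, Category.id_comp, Category.comp_id]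

lemma sign_unit : (β_ (𝟙_ C) (𝟙_ C)).hom = (1 : ℤ) • 𝟙 _ := by
  rw [one_zsmul, braiding_tensorUnit_left, unitors_equal, Iso.hom_inv_id]

end Sign

section Shift

variable {C : Type u} [Category.{v} C] [Preadditive C] [HasZeroObject C] [HasShift C ℤ]
  [∀ n : ℤ, (shiftFunctor C n).Additive] [Pretriangulated C] [MonoidalCategory C]
  [SymmetricCategory C] [TensorTriangulated C] [MonoidalPreadditive C]

lemma sign_shift (m : ℕ) :
    (β_ ((𝟙_ C)⟦(m : ℤ)⟧) ((𝟙_ C)⟦(m : ℤ)⟧)).hom = ((-1 : ℤ) ^ m) • 𝟙 _ := by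
  induction m with
  | zero =>
    rw [pow_zero]
    exact sign_iso ((shiftFunctorZero' C ((0 : ℕ) : ℤ) (by simp)).app (𝟙_ C)).symm sign_unit
  | succ m ih =>
    have h1 : (β_ ((𝟙_ C)⟦(1 : ℤ)⟧) ((𝟙_ C)⟦(1 : ℤ)⟧)).hom = (-1 : ℤ) • 𝟙 _ := by
      rw [TensorTriangulated.sign, neg_one_zsmul]
    have h2 := sign_tensor ih h1
    rw [pow_succ]
    refine sign_iso ?_ h2
    exact rShift ((𝟙_ C)⟦(m : ℤ)⟧) (𝟙_ C) 1 ≪≫ (shiftFunctor C (1 : ℤ)).mapIso
      (ρ_ ((𝟙_ C)⟦(m : ℤ)⟧)) ≪≫ ((shiftFunctorAdd' C (m : ℤ) 1 ((m + 1 : ℕ) : ℤ)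
        (by push_cast; ring)).app (𝟙_ C)).symm

lemma whisker_unit_zero {X Y : C} {f : X ⟶ Y} (h : f ▷ (𝟙_ C) = 0) : f = 0 := by
  have h1 : f = (ρ_ X).inv ≫ f ▷ (𝟙_ C) ≫ (ρ_ Y).hom := by simp
  rw [h1, h, zero_comp, comp_zero]

lemma whisker_tensor_zero {X Y : C} {f : X ⟶ Y} {A B : C} (h : f ▷ (A ⊗ B) = 0) :
    (f ▷ A) ▷ B = 0 := by
  have h1 : (f ▷ A) ▷ B = (α_ X A B).hom ≫ f ▷ (A ⊗ B) ≫ (α_ Y A B).inv := by
    rw [whiskerRight_tensor]
    simp
  rw [h1, h, zero_comp, comp_zero]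

lemma whisker_shift_zero {X Y : C} {f : X ⟶ Y} {m : ℤ} (h : f ▷ ((𝟙_ C)⟦m⟧) = 0) : f = 0 := by
  have h1 := rShift_natural_left f (𝟙_ C) m
  rw [h, zero_comp] at h1
  apply whisker_unit_zero
  apply (shiftFunctor C m).map_injective
  rw [Functor.map_zero, ← cancel_epi (rShift X (𝟙_ C) m).hom, ← h1, comp_zero]

lemma whisker_pw_zero {X Y : C} {f : X ⟶ Y} {m : ℤ} (n : ℕ)
    (h : f ▷ (pw (𝟙_ C) ((𝟙_ C)⟦m⟧) n) = 0) : f = 0 := by
  induction n with
  | zero => exact whisker_unit_zero h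
  | succ n ih => exact ih (whisker_shift_zero (whisker_tensor_zero h))

end Shift

section Heart

variable {C : Type u} [Category.{v} C] [Preadditive C] [HasZeroObject C] [HasShift C ℤ]
  [∀ n : ℤ, (shiftFunctor C n).Additive] [Pretriangulated C] [MonoidalCategory C]
  [SymmetricCategory C] [TensorTriangulated C] [MonoidalPreadditive C] [RightRigidCategory C]
  {E : Type w} [Field E] {E' : Type w'} [Field E'] {t : TStructure C} {R : Realisation C E}
  (R' : Realisation C E')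
  (ht : TensorCompat t) (he : TExact t R) (hu : Hrt t (𝟙_ C))
  (hid : ∀ e : 𝟙_ C ⟶ 𝟙_ C, e ≫ e = e → e = 0 ∨ e = 𝟙 _)

include ht in
lemma pw_hrt' {X Z : C} (hX : Hrt t X) (hZ : Hrt t Z) (n : ℕ) : Hrt t (pw X Z n) := by
  induction n with
  | zero => exact hX
  | succ n ih => exact ht.hrt ih hZ

include ht he hu hid in
/-- The antisymmetrizer vanishes in degrees larger than the dimension. -/
lemma asym_heart_zero [IsTriangulated C] {X Z : C} (hX : Hrt t X) (hZ : Hrt t Z) (n : ℕ)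
    (hn : Module.finrank E (R.H.obj Z) < n) : asym (-1) X Z n = 0 := by
  rw [asym_neg_one]
  have h0 := fun n => pw_hrt' ht hX hZ n
  apply faithful_heart ht he hu hid (h0 _) (h0 _)
  have h1 := kap_iso (fun n => he.deg (h0 n)) n
  rw [← cancel_epi (kap R.H X Z n), ← alt_lax,
    alt_vec_zero _ _ _ hn, zero_comp, comp_zero]

/-- The consequences of the vanishing of a symmetrizer. -/
lemma finrank_of_asym {X Z : C} (hX : ¬ IsZero (R'.H.obj X)) {n : ℕ}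
    (h : asym (-1) X Z n = 0) : Module.finrank E' (R'.H.obj Z) < n := by
  have := mono_kap R' X Z n
  exact finrank_lt_of_alt _ _ hX n (asym_zero_of_lax R'.H X Z (-1) n h)

lemma isZero_of_asym [CharZero E'] {X Z : C} (hX : ¬ IsZero (R'.H.obj X)) {n : ℕ}
    (h : asym 1 X Z n = 0) : IsZero (R'.H.obj Z) := by
  have := mono_kap R' X Z n
  exact isZero_of_sym _ _ hX n (asym_zero_of_lax R'.H X Z 1 n h)

include ht he hu hid in
/-- The vanishing of a signed symmetrizer on the shifts of an object of the heart. -/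
lemma asym_shift [IsTriangulated C] {Z : C} (hZ : Hrt t Z) (n : ℕ)
    (hn : Module.finrank E (R.H.obj Z) < n) (p : ℤ) :
    ∃ X Z' : C, ¬ IsZero (R'.H.obj X) ∧ Nonempty (Z' ≅ Z⟦p⟧) ∧
      asym (-((-1) ^ p.natAbs)) X Z' n = 0 := by
  have hsq : ∀ m : ℕ, ((-1 : ℤ) ^ m) * ((-1 : ℤ) ^ m) = 1 := fun m => by
    rw [← pow_add]
    exact Even.neg_one_pow ⟨m, rfl⟩
  have hneg : ∀ m : ℕ, ((-1 : ℤ) ^ m) * (-((-1 : ℤ) ^ m)) = -1 := fun m => by
    rw [mul_neg, hsq]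
  have hU : Hrt t (𝟙_ C ⊗ 𝟙_ C) := ht.hrt hu hu
  rcases le_total 0 p with hp | hp
  · obtain ⟨m, rfl⟩ := Int.eq_ofNat_of_zero_le hp
    refine ⟨𝟙_ C ⊗ 𝟙_ C, Z ⊗ (𝟙_ C)⟦(m : ℤ)⟧, ?_, ⟨rShift Z (𝟙_ C) m ≪≫
      (shiftFunctor C (m : ℤ)).mapIso (ρ_ Z)⟩, ?_⟩
    · intro h
      exact not_isZero_H_unit R' (h.of_iso (R'.H.mapIso (λ_ (𝟙_ C)).symm))
    · have h1 := asym_mrg (sign_shift (C := C) m) (hsq m) (-((-1 : ℤ) ^ m)) (𝟙_ C) Z (𝟙_ C) n
      rw [hneg, asym_heart_zero ht he hu hid hu hZ n hn] at h1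
      have h2 : (0 : pw (𝟙_ C) Z n ⟶ pw (𝟙_ C) Z n) ▷ pw (𝟙_ C) ((𝟙_ C)⟦(m : ℤ)⟧) n = 0 :=
        (tensorRight _).map_zero _ _
      rw [h2, zero_comp] at h1
      rw [Int.natAbs_natCast, ← cancel_epi (mrg (𝟙_ C) Z (𝟙_ C) ((𝟙_ C)⟦(m : ℤ)⟧) n), ← h1,
        comp_zero]
  · obtain ⟨m, hm⟩ := Int.eq_ofNat_of_zero_le (neg_nonneg.2 hp)
    obtain rfl : p = -(m : ℤ) := by omega
    refine ⟨𝟙_ C, Z⟦-(m : ℤ)⟧, not_isZero_H_unit R', ⟨Iso.refl _⟩, ?_⟩
    let Y : C := Z⟦-(m : ℤ)⟧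
    have e : Y ⊗ (𝟙_ C)⟦(m : ℤ)⟧ ≅ Z := rShift Y (𝟙_ C) m ≪≫
      (shiftFunctor C (m : ℤ)).mapIso (ρ_ Y) ≪≫ (shiftEquiv C (m : ℤ)).counitIso.app Z
    have hZ' : Hrt t (Y ⊗ (𝟙_ C)⟦(m : ℤ)⟧) := hZ.iso e.symm
    have hn' : Module.finrank E (R.H.obj (Y ⊗ (𝟙_ C)⟦(m : ℤ)⟧)) < n := by
      rwa [LinearEquiv.finrank_eq (R.H.mapIso e).toLinearEquiv]
    have h1 := asym_mrg (sign_shift (C := C) m) (hsq m) (-1) (𝟙_ C) Y (𝟙_ C) n
    rw [asym_heart_zero ht he hu hid hU hZ' n hn', comp_zero, mul_neg_one] at h1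
    have h2 : asym (-((-1 : ℤ) ^ m)) (𝟙_ C) Y n ▷ pw (𝟙_ C) ((𝟙_ C)⟦(m : ℤ)⟧) n = 0 := by
      rw [← cancel_mono (mrg (𝟙_ C) Y (𝟙_ C) ((𝟙_ C)⟦(m : ℤ)⟧) n), h1, zero_comp]
    rw [Int.natAbs_neg, Int.natAbs_natCast]
    exact whisker_pw_zero n h2

include ht he hu hid in
/-- The cohomology of an object of the heart in another realisation vanishes in odd degrees. -/
theorem isZero_odd [IsTriangulated C] [CharZero E'] {Z : C} (hZ : Hrt t Z) (p : ℤ)
    (hp : Odd p) : IsZero (R'.H.obj (Z⟦p⟧)) := by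
  obtain ⟨X, Z', hX, ⟨e⟩, h⟩ := asym_shift R' ht he hu hid hZ _ (Nat.lt_succ_self _) p
  rw [Odd.neg_one_pow (Int.natAbs_odd.2 hp), neg_neg] at h
  exact (isZero_of_asym R' hX h).of_iso (R'.H.mapIso e.symm)

include ht he hu hid in
/-- The cohomology of an object of the heart in another realisation is bounded by the dimension. -/
theorem finrank_le [IsTriangulated C] [CharZero E'] {Z : C} (hZ : Hrt t Z) (p : ℤ) :
    Module.finrank E' (R'.H.obj (Z⟦p⟧)) ≤ Module.finrank E (R.H.obj Z) := by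
  rcases Int.even_or_odd p with hp | hp
  · obtain ⟨X, Z', hX, ⟨e⟩, h⟩ := asym_shift R' ht he hu hid hZ _ (Nat.lt_succ_self _) p
    rw [Even.neg_one_pow (Int.natAbs_even.2 hp)] at h
    have h1 := finrank_of_asym R' hX h
    rw [LinearEquiv.finrank_eq (R'.H.mapIso e).toLinearEquiv] at h1
    omega
  · have h1 := isZero_odd R' ht he hu hid hZ p hp
    rw [ModuleCat.isZero_iff_subsingleton] at h1
    rw [Module.finrank_zero_of_subsingleton]
    exact Nat.zero_le _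

end Heart

end Run7.h822.MT
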