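import Pool.Agent.Y116.MT.Deg
import Pool.Agent.V1178.MT.Defs

/-!
# Generators with hard Lefschetz and Betti numbers independent of the realisation
-/

set_option autoImplicit false

open CategoryTheory Limits MonoidalCategory Pretriangulated Triangulated

namespace Run7.h822.MT

open Pool.Agent.Y116.MT Pool.Agent.V1178.MT

universe v u w

section

variable {C : Type u} [Category.{v} C] [Preadditive C] [HasZeroObject C] [HasShift C ℤ]
  [∀ n : ℤ, (shiftFunctor C n).Additive] [Pretriangulated C]

/-- Thick subcategories: triangulated subcategories closed under direct summands. -/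
structure IsThick (P : ObjectProperty C) : Prop where
  zero (X : C) : IsZero X → P X
  shift (X : C) (n : ℤ) : P X → P (X⟦n⟧)
  ext {X Y Z : C} (f : X ⟶ Y) (g : Y ⟶ Z) (h : Z ⟶ X⟦(1 : ℤ)⟧) :
    Triangle.mk f g h ∈ distTriang C → P X → P Z → P Y
  retract {X Y : C} (i : Y ⟶ X) (r : X ⟶ Y) : i ≫ r = 𝟙 Y → P X → P Y

variable [MonoidalCategory C] [SymmetricCategory C] [TensorTriangulated C]

/-- The dimension of the cohomology of `X` in degree `i`. -/
noncomputable def bet {E : Type w} [Field E] (R : Realisation C E) (X : C) (i : ℤ) : ℕ :=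
  Module.finrank E (R.H.obj (X⟦i⟧))

/-- A class `Q` of generators which satisfies hard Lefschetz for one realisation `R l₀` and the
Betti numbers of which are the same for all realisations. For motives over a field these are the
objects `M(X)(m)[2m]` with `X` smooth projective of pure dimension, `T` is `𝟙(1)[2]` and the
integer `e` is minus the dimension of `X`, shifted according to the twist. -/
structure PureGenerators (Q : ObjectProperty C) (T : C) {Λ : Type*} {E : Λ → Type w}
    [∀ l, Field (E l)] (R : ∀ l, Realisation C (E l)) (l₀ : Λ) : Prop where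
  invertible : ∃ T' : C, Nonempty (T ⊗ T' ≅ 𝟙_ C)
  degree (l : Λ) : (R l).Deg T (-2)
  lefschetz (X : C) : Q X → ∃ e : ℤ, ∀ k : ℕ, ∃ L : X ⟶ twist T X k,
    IsIso ((R l₀).H.map (L⟦e - k⟧'))
  betti (X : C) : Q X → ∀ (l : Λ) (i : ℤ), bet (R l) X i = bet (R l₀) X i
  generates (P : ObjectProperty C) : IsThick P → (∀ X, Q X → P X) → ∀ X, P X

/-- A morphism `f : A ⟶ X` which behaves in the cohomology `R` as the truncation in degrees
`≤ 0`. -/
structure LooksLikeTruncation {E : Type w} [Field E] (R : Realisation C E) {A X : C}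
    (f : A ⟶ X) : Prop where
  pos (i : ℤ) : 0 < i → IsZero (R.H.obj (A⟦i⟧))
  nonpos (i : ℤ) : i ≤ 0 → IsIso (R.H.map (f⟦i⟧'))

end

end Run7.h822.MT
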