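import Pool.Agent.Run7.h822.MT.Trick

/-!
# The cohomology objects of a t-structure detected by a conservative t-exact realisation
-/

set_option autoImplicit false
set_option linter.unusedSectionVars false
set_option linter.unusedSimpArgs false
set_option backward.isDefEq.respectTransparency false
set_option backward.defeqAttrib.useBackward true

open CategoryTheory Limits MonoidalCategory Pretriangulated Triangulated TensorProduct

namespace Run7.h822.MT

open Pool.Agent.Y116.MT Pool.Agent.V1178.MT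

universe v u w w'

open Functor.LaxMonoidal

section

variable {C : Type u} [Category.{v} C] [Preadditive C] [HasZeroObject C] [HasShift C ℤ]
  [∀ n : ℤ, (shiftFunctor C n).Additive] [Pretriangulated C] [MonoidalCategory C]
  [SymmetricCategory C] [TensorTriangulated C] {E : Type w} [Field E] (R : Realisation C E)
  {X Y Z : C} {f : X ⟶ Y} {g : Y ⟶ Z} {h : Z ⟶ X⟦(1 : ℤ)⟧}
  (hT : Triangle.mk f g h ∈ distTriang C)

include hT in
lemma hexact (i : ℤ) (y : R.H.obj (Y⟦i⟧)) (hy : (R.H.map (g⟦i⟧')).hom y = 0) :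
    ∃ x, (R.H.map (f⟦i⟧')).hom x = y := by
  let _ := Functor.ShiftSequence.tautological R.H ℤ
  have h1 := R.H.homologySequence_exact₂ _ hT i
  rw [ShortComplex.moduleCat_exact_iff] at h1
  exact h1 y hy

include hT in
lemma hcomp (i : ℤ) (x : R.H.obj (X⟦i⟧)) : (R.H.map (g⟦i⟧')).hom ((R.H.map (f⟦i⟧')).hom x) = 0 := by
  have h1 : R.H.map (f⟦i⟧') ≫ R.H.map (g⟦i⟧') = 0 := by
    rw [← Functor.map_comp, ← Functor.map_comp, comp12 hT, Functor.map_zero, Functor.map_zero]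
  exact LinearMap.congr_fun (congrArg ModuleCat.Hom.hom h1) x

include hT in
lemma isZero_cone (hf : ∀ i : ℤ, IsIso (R.H.map (f⟦i⟧'))) (i : ℤ) : IsZero (R.H.obj (Z⟦i⟧)) := by
  let _ := Functor.ShiftSequence.tautological R.H ℤ
  have h0 : IsIso (R.H.map (f⟦i⟧')) := hf i
  have h1 : IsIso (R.H.map (f⟦i + 1⟧')) := hf (i + 1)
  have h2 : Mono ((R.H.shift (i + 1)).map f) :=
    (inferInstance : Mono (R.H.map (f⟦i + 1⟧')))
  have h3 : Epi ((R.H.shift i).map f) := (inferInstance : Epi (R.H.map (f⟦i⟧')))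
  have h4 := (R.H.homologySequence_mono_shift_map_mor₁_iff _ hT i (i + 1) rfl).1 h2
  have h5 := (R.H.homologySequence_epi_shift_map_mor₂_iff _ hT i (i + 1) rfl).2 h4
  have h6 : R.H.map (g⟦i⟧') = 0 := (R.H.homologySequence_epi_shift_map_mor₁_iff _ hT i).1 h3
  have h7 : Epi (R.H.map (g⟦i⟧')) := h5
  rw [IsZero.iff_id_eq_zero, ← cancel_epi (R.H.map (g⟦i⟧')), h6, zero_comp, zero_comp]

include hT in
lemma bet_le (i : ℤ) : bet R Y i ≤ bet R X i + bet R Z i := by
  have h1 : LinearMap.ker (R.H.map (g⟦i⟧')).hom ≤ LinearMap.range (R.H.map (f⟦i⟧')).hom := by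
    intro y hy
    obtain ⟨x, hx⟩ := hexact R hT i y hy
    exact ⟨x, hx⟩
  have h2 := LinearMap.finrank_range_add_finrank_ker (R.H.map (g⟦i⟧')).hom
  have h3 := Submodule.finrank_mono h1
  have h4 := LinearMap.finrank_range_le (R.H.map (f⟦i⟧')).hom
  have h5 := Submodule.finrank_le (LinearMap.range (R.H.map (g⟦i⟧')).hom)
  simp only [bet]
  omega

variable {R}

lemma isIso_of_H (hc : Conservative R) {X Y : C} (f : X ⟶ Y)
    (hf : ∀ i : ℤ, IsIso (R.H.map (f⟦i⟧'))) : IsIso f := by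
  obtain ⟨Z, g, h, hT⟩ := distinguished_cocone_triangle f
  exact isIso1_of_isZero3 hT (hc Z (isZero_cone R hT hf))

end

section

variable {C : Type u} [Category.{v} C] [Preadditive C] [HasZeroObject C] [HasShift C ℤ]
  [∀ n : ℤ, (shiftFunctor C n).Additive] [Pretriangulated C] [MonoidalCategory C]
  [SymmetricCategory C] [TensorTriangulated C] [MonoidalPreadditive C] [RightRigidCategory C]
  {E : Type w} [Field E] {R : Realisation C E}

/-- A conservative t-exact realisation. -/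
structure CE (t : TStructure C) (R : Realisation C E) : Prop where
  cons : Conservative R
  ex : TExact t R

/-- The objects in the degree `q` only. -/
def Conc (t : TStructure C) (q : ℤ) (X : C) : Prop := t.IsLE X q ∧ t.IsGE X q

variable {t : TStructure C}

lemma Conc.shift {q : ℤ} {X : C} (h : Conc t q X) (a r : ℤ) (hr : a + r = q) :
    Conc t r (X⟦a⟧) := by
  have := h.1
  have := h.2
  exact ⟨t.isLE_shift X q a r, t.isGE_shift X q a r⟩

lemma Conc.hrt {q : ℤ} {X : C} (h : Conc t q X) : Hrt t (X⟦q⟧) :=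
  h.shift q 0 (by ring)

lemma Conc.iso {q : ℤ} {X Y : C} (h : Conc t q X) (e : X ≅ Y) : Conc t q Y :=
  ⟨@TStructure.isLE_of_iso _ _ _ _ _ _ _ t _ _ e q h.1,
    @TStructure.isGE_of_iso _ _ _ _ _ _ _ t _ _ e q h.2⟩

lemma Conc.deg (he : TExact t R) {q : ℤ} {X : C} (h : Conc t q X) : R.Deg X q := by
  intro i hi
  rcases lt_or_gt_of_ne hi with h1 | h1
  · exact he.isGE h.2 i h1
  · exact he.isLE h.1 i h1

lemma CE.conc (hR : CE t R) {q : ℤ} {X : C} (h : R.Deg X q) : Conc t q X :=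
  ⟨isLE_of hR.cons hR.ex fun i hi => h i (by omega),
    isGE_of hR.cons hR.ex fun i hi => h i (by omega)⟩

/-- `H` in degree `i` is invertible on a map whose cone is in degrees `> q`, for `i ≤ q`. -/
lemma isIso_of_coneGE (he : TExact t R) {X Y Z : C} {f : X ⟶ Y} {g : Y ⟶ Z} {h : Z ⟶ X⟦(1 : ℤ)⟧}
    (hT : Triangle.mk f g h ∈ distTriang C) {q : ℤ} (hZ : t.IsGE Z (q + 1)) {i : ℤ} (hi : i ≤ q) :
    IsIso (R.H.map (f⟦i⟧')) := by
  have h1 := hmono1 R.H hT i (he.isGE hZ _ (by omega))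
  have h2 := hepi1 R.H hT i (he.isGE hZ _ (by omega))
  exact isIso_of_mono_of_epi _

/-- `H` in degree `i` is invertible on a map whose fiber is in degrees `< q`, for `q ≤ i`. -/
lemma isIso_of_fiberLE (he : TExact t R) {X Y Z : C} {f : X ⟶ Y} {g : Y ⟶ Z}
    {h : Z ⟶ X⟦(1 : ℤ)⟧} (hT : Triangle.mk f g h ∈ distTriang C) {q : ℤ} (hX : t.IsLE X (q - 1))
    {i : ℤ} (hi : q ≤ i) : IsIso (R.H.map (g⟦i⟧')) := by
  have h1 := hmono2 R.H hT i (he.isLE hX _ (by omega))
  have h2 := hepi2 R.H hT i (he.isLE hX _ (by omega))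
  exact isIso_of_mono_of_epi _

lemma iso_le (he : TExact t R) (X : C) (q : ℤ) {i : ℤ} (hi : i ≤ q) :
    IsIso (R.H.map (((t.truncLEι q).app X)⟦i⟧')) :=
  isIso_of_coneGE he (t.triangleLEGT_distinguished q X)
    (inferInstanceAs (t.IsGE ((t.truncGT q).obj X) (q + 1))) hi

lemma iso_ge (he : TExact t R) (X : C) (q : ℤ) {i : ℤ} (hi : q ≤ i) :
    IsIso (R.H.map (((t.truncGEπ q).app X)⟦i⟧')) :=
  isIso_of_fiberLE he (t.triangleLEGE_distinguished (q - 1) q (by omega) X)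
    (inferInstanceAs (t.IsLE ((t.truncLE (q - 1)).obj X) (q - 1))) hi

variable [IsTriangulated C]

/-- The part of `X` in degree `q`, not shifted. -/
noncomputable abbrev pc (t : TStructure C) (q : ℤ) : C ⥤ C := t.truncLE q ⋙ t.truncGE q

lemma pc_conc (q : ℤ) (X : C) : Conc t q ((pc t q).obj X) :=
  ⟨inferInstanceAs (t.IsLE ((t.truncGELE q q).obj X) q),
    inferInstanceAs (t.IsGE ((t.truncGELE q q).obj X) q)⟩

lemma isIso_map_of_comm {X X' Y Y' : C} {a : X ⟶ X'} {f : X ⟶ Y} {f' : X' ⟶ Y'} {b : Y ⟶ Y'}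
    (hc : f ≫ b = a ≫ f') (i : ℤ) (h1 : IsIso (R.H.map (f⟦i⟧'))) (h2 : IsIso (R.H.map (f'⟦i⟧'))) :
    IsIso (R.H.map (a⟦i⟧')) ↔ IsIso (R.H.map (b⟦i⟧')) := by
  have h3 : R.H.map (f⟦i⟧') ≫ R.H.map (b⟦i⟧') = R.H.map (a⟦i⟧') ≫ R.H.map (f'⟦i⟧') := by
    rw [← Functor.map_comp, ← Functor.map_comp, ← Functor.map_comp, ← Functor.map_comp, hc]
  constructor
  · intro h4
    have h5 : IsIso (R.H.map (f⟦i⟧') ≫ R.H.map (b⟦i⟧')) := by
      rw [h3]
      infer_instance
    exact IsIso.of_isIso_comp_left (R.H.map (f⟦i⟧')) _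
  · intro h4
    have h5 : IsIso (R.H.map (a⟦i⟧') ≫ R.H.map (f'⟦i⟧')) := by
      rw [← h3]
      infer_instance
    exact IsIso.of_isIso_comp_right _ (R.H.map (f'⟦i⟧'))

lemma isIso_of_conc (hR : CE t R) {q : ℤ} {V W : C} (hV : Conc t q V) (hW : Conc t q W) (f : V ⟶ W)
    (hf : IsIso (R.H.map (f⟦q⟧'))) : IsIso f := by
  apply isIso_of_H hR.cons
  intro i
  by_cases hi : i = q
  · subst hi
    exact hf
  · have h1 := hV.deg hR.ex i hi
    have h2 := hW.deg hR.ex i hi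
    exact ⟨0, h1.eq_of_src _ _, h2.eq_of_src _ _⟩

/-- The functor `pc` inverts the maps which are invertible on the cohomology in degree `q`. -/
lemma isIso_pc (hR : CE t R) {q : ℤ} {X Y : C} (f : X ⟶ Y) (hf : IsIso (R.H.map (f⟦q⟧'))) :
    IsIso ((pc t q).map f) := by
  apply isIso_of_conc hR (pc_conc q X) (pc_conc q Y)
  have h1 : IsIso (R.H.map (((t.truncLE q).map f)⟦q⟧')) :=
    (isIso_map_of_comm ((t.truncLEι q).naturality f).symm q (iso_le hR.ex X q le_rfl)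
      (iso_le hR.ex Y q le_rfl)).2 hf
  exact (isIso_map_of_comm ((t.truncGEπ q).naturality ((t.truncLE q).map f)).symm q
    (iso_ge hR.ex _ q le_rfl) (iso_ge hR.ex _ q le_rfl)).1 h1

/-- The part of degree `q` of an object in degree `q`. -/
lemma pc_self {q : ℤ} {V : C} (hV : Conc t q V) : Nonempty ((pc t q).obj V ≅ V) := by
  have := hV.1
  have := hV.2
  have h1 : IsIso ((t.truncLEι q).app V) := inferInstance
  have h2 : t.IsGE ((t.truncLE q).obj V) q := inferInstance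
  have h3 : IsIso ((t.truncGEπ q).app ((t.truncLE q).obj V)) :=
    (t.isGE_iff_isIso_truncGEπ_app q _).1 h2
  exact ⟨(asIso ((t.truncGEπ q).app ((t.truncLE q).obj V))).symm ≪≫
    asIso ((t.truncLEι q).app V)⟩

/-- Recognition of the part of degree `q`. -/
lemma pc_roof (hR : CE t R) {q : ℤ} {X A V : C} (u : A ⟶ X) (v : A ⟶ V) (hV : Conc t q V)
    (hu : IsIso (R.H.map (u⟦q⟧'))) (hv : IsIso (R.H.map (v⟦q⟧'))) :
    Nonempty ((pc t q).obj X ≅ V) := by
  have h1 := isIso_pc hR u hu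
  have h2 := isIso_pc hR v hv
  obtain ⟨e⟩ := pc_self hV
  exact ⟨(asIso ((pc t q).map u)).symm ≪≫ asIso ((pc t q).map v) ≪≫ e⟩

lemma isIso_H_shift {X Y : C} (f : X ⟶ Y) (a i j : ℤ) (h : a + i = j)
    (hf : IsIso (R.H.map (f⟦j⟧'))) : IsIso (R.H.map ((f⟦a⟧')⟦i⟧')) := by
  have h1 : f⟦j⟧' ≫ (shiftFunctorAdd' C a i j h).hom.app Y =
    (shiftFunctorAdd' C a i j h).hom.app X ≫ (f⟦a⟧')⟦i⟧' :=
    (shiftFunctorAdd' C a i j h).hom.naturality f
  have h2 : R.H.map ((shiftFunctorAdd' C a i j h).hom.app X) ≫ R.H.map ((f⟦a⟧')⟦i⟧') =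
      R.H.map (f⟦j⟧') ≫ R.H.map ((shiftFunctorAdd' C a i j h).hom.app Y) := by
    rw [← Functor.map_comp, ← Functor.map_comp, h1]
  have h3 : IsIso (R.H.map ((shiftFunctorAdd' C a i j h).hom.app X) ≫
      R.H.map ((f⟦a⟧')⟦i⟧')) := by
    rw [h2]
    infer_instance
  exact IsIso.of_isIso_comp_left (R.H.map ((shiftFunctorAdd' C a i j h).hom.app X)) _

lemma pc_shift (hR : CE t R) (X : C) (a q r : ℤ) (h : a + q = r) :
    Nonempty ((pc t q).obj (X⟦a⟧) ≅ ((pc t r).obj X)⟦a⟧) := by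
  refine pc_roof hR (A := ((t.truncLE r).obj X)⟦a⟧) (((t.truncLEι r).app X)⟦a⟧')
    (((t.truncGEπ r).app ((t.truncLE r).obj X))⟦a⟧') ((pc_conc r X).shift a q h) ?_ ?_
  · exact isIso_H_shift _ a q r h (iso_le hR.ex X r le_rfl)
  · exact isIso_H_shift _ a q r h (iso_ge hR.ex _ r le_rfl)

lemma pc_tensor (hR : CE t R) (ht : TensorCompat t) {P : C} {c : ℤ} (hP : Conc t (-c) P) (X : C)
    (q r : ℤ) (h : q + c = r) : Nonempty ((pc t q).obj (P ⊗ X) ≅ P ⊗ (pc t r).obj X) := by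
  refine pc_roof hR (A := P ⊗ (t.truncLE r).obj X) (P ◁ ((t.truncLEι r).app X))
    (P ◁ ((t.truncGEπ r).app ((t.truncLE r).obj X))) ⟨?_, ?_⟩ ?_ ?_
  · have h1 := ht.isLE hP.1 (pc_conc (t := t) r X).1
    rwa [show -c + r = q by omega] at h1
  · have h1 := ht.isGE hP.2 (pc_conc (t := t) r X).2
    rwa [show -c + r = q by omega] at h1
  · refine isIso_of_coneGE hR.ex (tensor_dist P (t.triangleLEGT_distinguished r X)) (q := q)
      ?_ le_rfl
    have h0 : t.IsGE ((t.truncGT r).obj X) (r + 1) := inferInstance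
    have h1 := ht.isGE hP.2 h0
    rwa [show -c + (r + 1) = q + 1 by omega] at h1
  · refine isIso_of_fiberLE hR.ex (tensor_dist P (t.triangleLEGE_distinguished (r - 1) r (by omega)
      ((t.truncLE r).obj X))) (q := q) ?_ le_rfl
    have h0 : t.IsLE ((t.truncLE (r - 1)).obj ((t.truncLE r).obj X)) (r - 1) := inferInstance
    have h1 := ht.isLE hP.1 h0
    rwa [show -c + (r - 1) = q - 1 by omega] at h1

end

end Run7.h822.MT
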