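import Pool.Agent.Run7.h822.MT.Main

/-!
# Existence of motivic t-structures, and one realisation suffices
-/

set_option autoImplicit false
set_option linter.unusedSectionVars false
set_option linter.unusedSimpArgs false
set_option backward.isDefEq.respectTransparency false
set_option backward.defeqAttrib.useBackward true

open CategoryTheory Limits MonoidalCategory Pretriangulated Triangulated TensorProduct

namespace Run7.h822.MT

open Pool.Agent.Y116.MT Pool.Agent.V1178.MT

universe v u w w'

section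

variable {C : Type u} [Category.{v} C] [Preadditive C] [HasZeroObject C] [HasShift C ℤ]
  [∀ n : ℤ, (shiftFunctor C n).Additive] [Pretriangulated C] [MonoidalCategory C]
  [SymmetricCategory C] [TensorTriangulated C] {E : Type w} [Field E] (R : Realisation C E)

/-- The objects with cohomology in degrees `≤ n`. -/
def leR (n : ℤ) : ObjectProperty C := fun X => ∀ i : ℤ, n < i → IsZero (R.H.obj (X⟦i⟧))

/-- The objects with cohomology in degrees `≥ n`. -/
def geR (n : ℤ) : ObjectProperty C := fun X => ∀ i : ℤ, i < n → IsZero (R.H.obj (X⟦i⟧))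

instance (n : ℤ) : (leR R n).IsClosedUnderIsomorphisms where
  of_iso e h i hi := (h i hi).of_iso (R.H.mapIso ((shiftFunctor C i).mapIso e.symm))

instance (n : ℤ) : (geR R n).IsClosedUnderIsomorphisms where
  of_iso e h i hi := (h i hi).of_iso (R.H.mapIso ((shiftFunctor C i).mapIso e.symm))

/-- The t-structure defined by a conservative realisation, if all objects have a morphism which
looks like a truncation. The orthogonality is automatic. -/
def tOf (hc : Conservative R)
    (htr : ∀ X : C, ∃ (A : C) (f : A ⟶ X), LooksLikeTruncation R f) : TStructure C where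
  le := leR R
  ge := geR R
  le_shift n a n' h X hX i hi := (hX (a + i) (by omega)).of_iso
    (R.H.mapIso ((shiftFunctorAdd C a i).app X).symm)
  ge_shift n a n' h X hX i hi := (hX (a + i) (by omega)).of_iso
    (R.H.mapIso ((shiftFunctorAdd C a i).app X).symm)
  le_zero_le := fun X hX i hi => hX i (by omega)
  ge_one_le := fun X hX i hi => hX i (by omega)
  zero' := by
    intro X Y f hX hY
    obtain ⟨D, g, h, hT⟩ := distinguished_cocone_triangle f
    obtain ⟨A, a, ha⟩ := htr D
    have h1 : ∀ i : ℤ, i ≤ 0 → IsIso (R.H.map (h⟦i⟧')) := by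
      intro i hi
      by_cases hi0 : i = 0
      · subst hi0
        have z1 : IsZero (R.H.obj (D⟦(0 : ℤ)⟧)) := hz3 R.H hT 0 (hY 0 (by omega)) (hX _ (by omega))
        have z2 : IsZero (R.H.obj (X⟦(1 : ℤ)⟧⟦(0 : ℤ)⟧)) := (hX 1 (by omega)).of_iso
          (R.H.mapIso ((shiftFunctorZero C ℤ).app _))
        exact ⟨0, z1.eq_of_src _ _, z2.eq_of_src _ _⟩
      · have m1 := hmono2 R.H (rotD hT) i (hY i (by omega))
        have m2 := hepi2 R.H (rotD hT) i (hY (i + 1) (by omega))
        exact isIso_of_mono_of_epi _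
    have h2 : IsIso (a ≫ h) := by
      apply isIso_of_H hc
      intro i
      rcases le_or_gt i 0 with hi | hi
      · have h3 := ha.nonpos i hi
        have h4 := h1 i hi
        rw [Functor.map_comp, Functor.map_comp]
        infer_instance
      · have z1 := ha.pos i hi
        have z2 : IsZero (R.H.obj (X⟦(1 : ℤ)⟧⟦i⟧)) := (hX (1 + i) (by omega)).of_iso
          (R.H.mapIso ((shiftFunctorAdd C 1 i).app X).symm)
        exact ⟨0, z1.eq_of_src _ _, z2.eq_of_src _ _⟩
    have h5 : (inv (a ≫ h) ≫ a) ≫ h = 𝟙 _ := by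
      rw [Category.assoc, IsIso.inv_hom_id]
    have h6 : f⟦(1 : ℤ)⟧' = 0 := by
      rw [← Category.id_comp (f⟦(1 : ℤ)⟧'), ← h5, Category.assoc, comp31 hT, comp_zero]
    apply (shiftFunctor C (1 : ℤ)).map_injective
    rw [h6, Functor.map_zero]
  exists_triangle_zero_one := by
    intro X
    obtain ⟨A, a, ha⟩ := htr X
    obtain ⟨B, b, d, hT⟩ := distinguished_cocone_triangle a
    refine ⟨A, B, ha.pos, ?_, a, b, d, hT⟩
    intro i hi
    let _ := Functor.ShiftSequence.tautological R.H ℤ
    have h0 := ha.nonpos i (by omega)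
    have e0 : Epi ((R.H.shift i).map a) := (inferInstance : Epi (R.H.map (a⟦i⟧')))
    have m1 : Mono ((R.H.shift (i + 1)).map a) := by
      by_cases hi1 : i + 1 ≤ 0
      · have h1 := ha.nonpos (i + 1) hi1
        exact (inferInstance : Mono (R.H.map (a⟦i + 1⟧')))
      · have z := ha.pos (i + 1) (by omega)
        exact ⟨fun x y _ => IsZero.eq_of_tgt (X := (R.H.shift (i + 1)).obj A) z x y⟩
    have h4 := (R.H.homologySequence_mono_shift_map_mor₁_iff _ hT i (i + 1) rfl).1 m1
    have h5 := (R.H.homologySequence_epi_shift_map_mor₂_iff _ hT i (i + 1) rfl).2 h4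
    have h6 : R.H.map (b⟦i⟧') = 0 := (R.H.homologySequence_epi_shift_map_mor₁_iff _ hT i).1 e0
    have h7 : Epi (R.H.map (b⟦i⟧')) := h5
    rw [IsZero.iff_id_eq_zero, ← cancel_epi (R.H.map (b⟦i⟧')), h6, zero_comp, zero_comp]

end

section

variable {C : Type u} [Category.{v} C] [Preadditive C] [HasZeroObject C] [HasShift C ℤ]
  [∀ n : ℤ, (shiftFunctor C n).Additive] [Pretriangulated C] [MonoidalCategory C]
  [SymmetricCategory C] [TensorTriangulated C] [MonoidalPreadditive C] [RightRigidCategory C]
  [IsTriangulated C]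
  (hid : ∀ e : 𝟙_ C ⟶ 𝟙_ C, e ≫ e = e → e = 0 ∨ e = 𝟙 _)

/-- The t-structure of a conservative realisation is motivic for this realisation. -/
theorem motivic_tOf {E : Type w} [Field E] {R : Realisation C E} (hc : Conservative R)
    (htr : ∀ X : C, ∃ (A : C) (f : A ⟶ X), LooksLikeTruncation R f) :
    IsMotivic (tOf R hc htr) (fun _ : Unit => R) where
  nondeg_le X hX := hc X fun i => hX (i - 1) i (by omega)
  nondeg_ge X hX := hc X fun i => hX (i + 1) i (by omega)
  tensor_le X Y hX hY := fun _ hi => tensor_vanish_pos hX hY hi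
  tensor_ge X Y hX hY := fun _ hi => tensor_vanish_neg hX hY hi
  exact_le _ X hX := hX
  exact_ge _ X hX := hX

include hid

/-- A motivic t-structure for one realisation gives truncations in its cohomology. -/
theorem truncations_of_motivic {E : Type w} [Field E] {R : Realisation C E} {t : TStructure C}
    (h : IsMotivic t (fun _ : Unit => R)) :
    Conservative R ∧ ∀ X : C, ∃ (A : C) (f : A ⟶ X), LooksLikeTruncation R f := by
  have ht : TensorCompat t := ⟨h.tensor_le, h.tensor_ge⟩
  have hu : Hrt t (𝟙_ C) := unit_hrt ht h.nondeg_le h.nondeg_ge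
  have he : TExact t R := ⟨h.exact_le (), h.exact_ge ()⟩
  refine ⟨fun X hX => conservative ht he hu hid h.nondeg_le h.nondeg_ge hX, fun X => ?_⟩
  obtain ⟨A, B, hA, hB, f, g, d, hT⟩ := t.exists_triangle X 0 1 rfl
  exact ⟨A, f, ⟨h.exact_le () A hA, fun i hi =>
    isIso_of_coneGE he hT (q := 0) ⟨hB⟩ hi⟩⟩

variable {Λ : Type*} {E : Λ → Type w} [∀ l, Field (E l)] [∀ l, CharZero (E l)]
  (R : ∀ l, Realisation C (E l)) (l₀ : Λ) (Q : ObjectProperty C) (T : C)
  (hQ : PureGenerators Q T R l₀) (t : TStructure C)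

include hQ

theorem exact_other (h : IsMotivic t (fun _ : Unit => R l₀)) (l : Λ) : TExact t (R l) := by
  have ht : TensorCompat t := ⟨h.tensor_le, h.tensor_ge⟩
  have hu : Hrt t (𝟙_ C) := unit_hrt ht h.nondeg_le h.nondeg_ge
  have hR : CE t (R l₀) := ⟨(truncations_of_motivic hid h).1, ⟨h.exact_le (), h.exact_ge ()⟩⟩
  obtain ⟨T', ⟨eT⟩⟩ := hQ.invertible
  apply exact_of_good (R l) hR ht hu hid
  refine hQ.generates (Good t (R l)) ⟨?_, ?_, ?_, ?_⟩ ?_
  · intro X hX
    exact good_zero (R l) hX
  · intro X n hX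
    exact good_shift (R l) hR hX n
  · intro X Y Z f g h hT hX hZ
    exact good_ext (R l) hR ht hu hid hT hX hZ
  · intro X Y i r hir hX
    exact good_retract (R l) hX i r hir
  · intro X hX
    obtain ⟨e, he⟩ := hQ.lefschetz X hX
    exact good_of_lefschetz (R l) hR ht hu hid (hQ.degree l₀) (hQ.degree l) eT e he
      (hQ.betti X hX l)

/-- One realisation suffices. -/
theorem motivic_iff_one : IsMotivic t (fun _ : Unit => R l₀) ↔ IsMotivic t R := by
  constructor
  · intro h
    exact ⟨h.nondeg_le, h.nondeg_ge, h.tensor_le, h.tensor_ge,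
      fun l => (exact_other hid R l₀ Q T hQ t h l).le,
      fun l => (exact_other hid R l₀ Q T hQ t h l).ge⟩
  · intro h
    exact ⟨h.nondeg_le, h.nondeg_ge, h.tensor_le, h.tensor_ge,
      fun _ => h.exact_le l₀, fun _ => h.exact_ge l₀⟩

/-- The Betti numbers of all objects are independent of the realisation. -/
theorem betti_indep (h : IsMotivic t R) (X : C) (l : Λ) (i : ℤ) :
    bet (R l) X i = bet (R l₀) X i := by
  have h0 := (motivic_iff_one hid R l₀ Q T hQ t).2 h
  have ht : TensorCompat t := ⟨h.tensor_le, h.tensor_ge⟩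
  have hu : Hrt t (𝟙_ C) := unit_hrt ht h.nondeg_le h.nondeg_ge
  have hc : ∀ l, Conservative (R l) := fun l X hX =>
    conservative ht ⟨h.exact_le l, h.exact_ge l⟩ hu hid h.nondeg_le h.nondeg_ge hX
  have hR : ∀ l, CE t (R l) := fun l => ⟨hc l, ⟨h.exact_le l, h.exact_ge l⟩⟩
  rw [← bet_pc (hR l) X i, ← bet_pc (hR l₀) X i]
  have h1 : Hrt t (((pc t i).obj X)⟦i⟧) := (pc_conc i X).hrt
  exact finrank_eq_of_deg (R l) (hR l₀) ht hu hid h1 ((hR l).ex.deg h1)

end

end Run7.h822.MT
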