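import Pool.Agent.Y116.MT.Mot
import Pool.Agent.Run7.h822.MT.Defs

/-!
# Simple objects of the heart
-/

set_option autoImplicit false

open CategoryTheory Limits MonoidalCategory Pretriangulated Triangulated

namespace Run7.h822.MT

open Pool.Agent.Y116.MT

universe v u

variable {C : Type u} [Category.{v} C] [Preadditive C] [HasZeroObject C] [HasShift C ℤ]
  [∀ n : ℤ, (shiftFunctor C n).Additive] [Pretriangulated C] [MonoidalCategory C]
  [SymmetricCategory C] [TensorTriangulated C]

/-- The simple objects of the heart: the non zero objects `X` of the heart such that in each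
distinguished triangle `A ⟶ X ⟶ B ⟶` with `A` and `B` in the heart, `A` or `B` is zero. -/
def SimpleHrt (t : TStructure C) (X : C) : Prop :=
  Hrt t X ∧ ¬ IsZero X ∧ ∀ (A B : C) (f : A ⟶ X) (g : X ⟶ B) (h : B ⟶ A⟦(1 : ℤ)⟧),
    Triangle.mk f g h ∈ distTriang C → Hrt t A → Hrt t B → IsZero A ∨ IsZero B

end Run7.h822.MT
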