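import Pool.Agent.Y116.MT.Defs

/-!
# The scalar attached to an endomorphism of the unit
-/

set_option autoImplicit false

open CategoryTheory Limits MonoidalCategory Pretriangulated Triangulated

namespace Run7.h822.MT

open Pool.Agent.Y116.MT

universe v u w

variable {C : Type u} [Category.{v} C] [Preadditive C] [HasZeroObject C] [HasShift C ℤ]
  [∀ n : ℤ, (shiftFunctor C n).Additive] [Pretriangulated C] [MonoidalCategory C]
  [SymmetricCategory C] [TensorTriangulated C]

/-- The scalar by which an endomorphism of the unit acts on the cohomology of the unit. -/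
noncomputable def scalar {E : Type w} [Field E] (R : Realisation C E) (τ : 𝟙_ C ⟶ 𝟙_ C) : E :=
  (Functor.LaxMonoidal.ε R.H ≫ R.H.map τ ≫ inv (Functor.LaxMonoidal.ε R.H)).hom (1 : E)

/-- The trace of an endomorphism of `X` on the cohomology of `X` in degree `i`. -/
noncomputable def traceH {E : Type w} [Field E] (R : Realisation C E) {X : C} (f : X ⟶ X)
    (i : ℤ) : E :=
  LinearMap.trace E (R.H.obj (X⟦i⟧)) (R.H.map (f⟦i⟧')).hom

end Run7.h822.MT
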