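import Mathlib

/-!
# The second moment argument
-/

set_option autoImplicit false
set_option linter.unusedSectionVars false

namespace Run7.h822.MT

open Finset

/-- Sums over a box along the diagonals. -/
lemma box_diag (e : ℤ) (K M : ℕ) (w : ℤ → ℤ → ℤ)
    (hM : ∀ p q, q ∈ Icc (e - K) (e + K) → M < p.natAbs → w p q = 0) (φ : ℤ → ℤ) :
    ∑ i ∈ Icc (e - K - M) (e + K + M), φ i * ∑ q ∈ Icc (e - K) (e + K), w (i - q) q =
      ∑ q ∈ Icc (e - K) (e + K), ∑ p ∈ Icc (-(M : ℤ)) M, φ (p + q) * w p q := by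
  simp_rw [mul_sum]
  rw [sum_comm]
  refine sum_congr rfl (fun q hq => ?_)
  have h1 : ∑ p ∈ Icc (-(M : ℤ)) M, φ (p + q) * w p q =
      ∑ i ∈ (Icc (-(M : ℤ)) M).map (addRightEmbedding q), φ i * w (i - q) q := by
    rw [sum_map]
    refine sum_congr rfl (fun p _ => ?_)
    simp
  rw [h1]
  symm
  refine sum_subset ?_ ?_
  · intro i hi
    rw [mem_map] at hi
    obtain ⟨p, hp, rfl⟩ := hi
    rw [mem_Icc] at hp hq ⊢
    simp only [addRightEmbedding_apply]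
    omega
  · intro i _ hi
    have h2 : M < (i - q).natAbs := by
      by_contra h
      apply hi
      rw [mem_map]
      refine ⟨i - q, ?_, ?_⟩
      · rw [mem_Icc]
        omega
      · simp
    rw [hM _ _ hq h2, mul_zero]

lemma box_odd (e : ℤ) (K : ℕ) (g : ℤ → ℤ) (hg : ∀ k : ℕ, g (e - k) = g (e + k)) :
    ∑ q ∈ Icc (e - K) (e + K), (q - e) * g q = 0 := by
  have h0 : ∀ q : ℤ, g (2 * e - q) = g q := by
    intro q
    rcases le_total e q with h | h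
    · obtain ⟨k, hk⟩ := Int.eq_ofNat_of_zero_le (sub_nonneg.2 h)
      obtain rfl : q = e + k := by omega
      rw [← hg k]
      congr 1
      ring
    · obtain ⟨k, hk⟩ := Int.eq_ofNat_of_zero_le (sub_nonneg.2 h)
      obtain rfl : q = e - k := by omega
      rw [hg k]
      congr 1
      ring
  have h1 : ∑ q ∈ Icc (e - K) (e + K), (q - e) * g q =
      ∑ q ∈ Icc (e - K) (e + K), -((q - e) * g q) := by
    refine sum_nbij' (fun q => 2 * e - q) (fun q => 2 * e - q) ?_ ?_ ?_ ?_ ?_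
    · intro q hq
      rw [mem_Icc] at hq ⊢
      omega
    · intro q hq
      rw [mem_Icc] at hq ⊢
      omega
    · intro q _
      ring
    · intro q _
      ring
    · intro q _
      rw [h0]
      ring
  rw [sum_neg_distrib] at h1
  omega

theorem second_moment (e : ℤ) (K M : ℕ) (b : ℤ → ℕ) (w : ℤ → ℤ → ℕ)
    (hM : ∀ p q, q ∈ Icc (e - K) (e + K) → M < p.natAbs → w p q = 0)
    (h1 : ∀ i, b i ≤ ∑ q ∈ Icc (e - K) (e + K), w (i - q) q)
    (h2 : ∀ q, ∑ p ∈ Icc (-(M : ℤ)) M, w p q ≤ b q)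
    (h3 : ∀ p (k : ℕ), w p (e - k) = w p (e + k)) (p q : ℤ)
    (hq : q ∈ Icc (e - K) (e + K)) (hp : p ≠ 0) : w p q = 0 := by
  have hM' : ∀ p q, q ∈ Icc (e - K) (e + K) → M < p.natAbs → ((w p q : ℕ) : ℤ) = 0 := by
    intro p q hq hp
    rw [hM p q hq hp, Nat.cast_zero]
  have key := box_diag e K M (fun p q => (w p q : ℤ)) hM'
  set I := Icc (e - K - M) (e + K + M) with hI
  set Q := Icc (e - K) (e + K) with hQ
  set P := Icc (-(M : ℤ)) M with hP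
  have hQI : Q ⊆ I := Icc_subset_Icc (by omega) (by omega)
  have s1 : ∑ i ∈ I, (∑ q ∈ Q, w (i - q) q) = ∑ q ∈ Q, ∑ p ∈ P, w p q := by
    have := key (fun _ => 1)
    simp only [one_mul] at this
    exact_mod_cast this
  have s2 : ∑ q ∈ Q, ∑ p ∈ P, w p q ≤ ∑ q ∈ Q, b q := sum_le_sum fun q _ => h2 q
  have s3 : ∑ q ∈ Q, b q ≤ ∑ i ∈ I, b i := sum_le_sum_of_subset hQI
  have s4 : ∑ i ∈ I, b i ≤ ∑ i ∈ I, (∑ q ∈ Q, w (i - q) q) := sum_le_sum fun i _ => h1 i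
  have e1 : ∀ i ∈ I, b i = ∑ q ∈ Q, w (i - q) q :=
    (sum_eq_sum_iff_of_le fun i _ => h1 i).1 (by omega)
  have e2 : ∀ q ∈ Q, ∑ p ∈ P, w p q = b q :=
    (sum_eq_sum_iff_of_le fun q _ => h2 q).1 (by omega)
  have e3 : ∀ i ∈ I, i ∉ Q → b i = 0 := by
    have h4 := sum_sdiff (f := b) hQI
    have h5 : ∑ i ∈ I \ Q, b i = 0 := by omega
    rw [sum_eq_zero_iff] at h5
    intro i hi hi'
    exact h5 i (mem_sdiff.2 ⟨hi, hi'⟩)
  have k1 : ∑ q ∈ Q, ∑ p ∈ P, (p + q - e) ^ 2 * (w p q : ℤ) =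
      ∑ q ∈ Q, ∑ p ∈ P, (q - e) ^ 2 * (w p q : ℤ) := by
    rw [← key (fun x => (x - e) ^ 2)]
    have h6 : ∀ i ∈ I, (i - e) ^ 2 * ∑ q ∈ Q, (w (i - q) q : ℤ) = (i - e) ^ 2 * (b i : ℤ) := by
      intro i hi
      rw [e1 i hi]
      push_cast
      rfl
    rw [sum_congr rfl h6]
    have h7 : ∀ q ∈ Q, ∑ p ∈ P, (q - e) ^ 2 * (w p q : ℤ) = (q - e) ^ 2 * (b q : ℤ) := by
      intro q hq
      rw [← e2 q hq, ← mul_sum]
      push_cast
      rfl
    rw [sum_congr rfl h7]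
    symm
    refine sum_subset hQI ?_
    intro i hi hi'
    rw [e3 i hi hi']
    simp
  have k2 : ∑ q ∈ Q, ∑ p ∈ P, p * ((q - e) * (w p q : ℤ)) = 0 := by
    rw [sum_comm]
    refine sum_eq_zero (fun p _ => ?_)
    rw [← mul_sum, box_odd e K (fun q => (w p q : ℤ)) (fun k => by rw [h3 p k]), mul_zero]
  have k3 : ∑ q ∈ Q, ∑ p ∈ P, p ^ 2 * (w p q : ℤ) = 0 := by
    have h8 : ∑ q ∈ Q, ∑ p ∈ P, p ^ 2 * (w p q : ℤ) =
        ∑ q ∈ Q, ∑ p ∈ P, (p + q - e) ^ 2 * (w p q : ℤ) -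
        ∑ q ∈ Q, ∑ p ∈ P, (q - e) ^ 2 * (w p q : ℤ) -
        2 * ∑ q ∈ Q, ∑ p ∈ P, p * ((q - e) * (w p q : ℤ)) := by
      simp only [mul_sum, ← sum_sub_distrib]
      refine sum_congr rfl (fun q _ => sum_congr rfl (fun p _ => ?_))
      ring
    rw [h8, k1, k2]
    ring
  by_cases hpM : M < p.natAbs
  · exact hM p q hq hpM
  · have hpP : p ∈ P := by
      rw [hP, mem_Icc]
      omega
    have h9 : ∀ q ∈ Q, 0 ≤ ∑ p ∈ P, p ^ 2 * (w p q : ℤ) := fun q _ =>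
      sum_nonneg fun p _ => by positivity
    have h10 := (sum_eq_zero_iff_of_nonneg h9).1 k3 q hq
    have h11 := (sum_eq_zero_iff_of_nonneg (fun p _ => by positivity)).1 h10 p hpP
    have h12 : p ^ 2 ≠ 0 := pow_ne_zero 2 hp
    have h13 := (mul_eq_zero.1 h11).resolve_left h12
    exact_mod_cast h13

end Run7.h822.MT
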