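import Pool.Agent.Run7.h822.MT.Serre
import Pool.Agent.Run7.h822.MT.Num

/-!
# One realisation suffices
-/

set_option autoImplicit false
set_option linter.unusedSectionVars false
set_option linter.unusedSimpArgs false
set_option backward.isDefEq.respectTransparency false
set_option backward.defeqAttrib.useBackward true

open CategoryTheory Limits MonoidalCategory Pretriangulated Triangulated TensorProduct

namespace Run7.h822.MT

open Pool.Agent.Y116.MT Pool.Agent.V1178.MT

universe v u w w'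

open Functor.LaxMonoidal

section

variable {C : Type u} [Category.{v} C] [Preadditive C] [HasZeroObject C] [HasShift C ℤ]
  [∀ n : ℤ, (shiftFunctor C n).Additive] [Pretriangulated C] [MonoidalCategory C]
  [SymmetricCategory C] [TensorTriangulated C] [MonoidalPreadditive C] [RightRigidCategory C]
  [IsTriangulated C] {E : Type w} [Field E] {R : Realisation C E} {t : TStructure C}
  {E' : Type w'} [Field E'] (R' : Realisation C E')

lemma bet_isZero {X : C} (h : IsZero X) (i : ℤ) : bet R' X i = 0 :=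
  (bet_eq_zero_iff R' X i).2 (R'.H.map_isZero ((shiftFunctor C i).map_isZero h))

lemma bet_truncLE (X : C) (n m : ℤ) (h : n + 1 = m) (i : ℤ) :
    bet R' ((t.truncLE m).obj X) i ≤ bet R' ((t.truncLE n).obj X) i +
      bet R' ((pc t m).obj X) i := by
  have h1 := bet_le R' (t.triangleLEGE_distinguished n m h ((t.truncLE m).obj X)) i
  have h2 : IsIso ((t.truncLE n).map ((t.truncLEι m).app X)) :=
    t.isIso_truncLE_map_truncLEι_app n m (by omega) X
  have h3 := bet_iso R' (asIso ((t.truncLE n).map ((t.truncLEι m).app X))) i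
  have h4 : bet R' ((t.truncLE n).obj ((t.truncLE m).obj X)) i =
    bet R' ((t.truncLE n).obj X) i := h3
  rw [← h4]
  exact h1

lemma bet_chain (X : C) (a : ℤ) (ha : t.IsGE X a) (i : ℤ) (k : ℕ) :
    bet R' ((t.truncLE (a - 1 + k)).obj X) i ≤
      ∑ q ∈ Finset.Icc a (a - 1 + k), bet R' ((pc t q).obj X) i := by
  induction k with
  | zero =>
    have h1 : IsZero ((t.truncLE (a - 1 + ((0 : ℕ) : ℤ))).obj X) :=
      t.isZero_truncLE_obj_of_isGE (a - 1 + ((0 : ℕ) : ℤ)) a (by push_cast; omega) X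
    rw [bet_isZero R' h1]
    exact Nat.zero_le _
  | succ k ih =>
    have h1 := bet_truncLE (t := t) R' X (a - 1 + k) (a - 1 + ((k + 1 : ℕ) : ℤ))
      (by push_cast; omega) i
    have h2 : Finset.Icc a (a - 1 + ((k + 1 : ℕ) : ℤ)) =
        insert (a - 1 + ((k + 1 : ℕ) : ℤ)) (Finset.Icc a (a - 1 + k)) := by
      ext x
      simp only [Finset.mem_insert, Finset.mem_Icc]
      push_cast
      omega
    rw [h2, Finset.sum_insert]
    · omega
    · simp only [Finset.mem_Icc]
      push_cast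
      omega

lemma bet_le_sum (X : C) (a b : ℤ) (ha : t.IsGE X a) (hb : t.IsLE X b) (hab : a ≤ b + 1) (i : ℤ) :
    bet R' X i ≤ ∑ q ∈ Finset.Icc a b, bet R' ((pc t q).obj X) i := by
  obtain ⟨k, hk⟩ := Int.eq_ofNat_of_zero_le (show 0 ≤ b + 1 - a by omega)
  obtain rfl : b = a - 1 + k := by omega
  have h1 : IsIso ((t.truncLEι (a - 1 + k)).app X) := inferInstance
  have h2 : bet R' ((t.truncLE (a - 1 + k)).obj X) i = bet R' X i :=
    bet_iso R' (asIso ((t.truncLEι (a - 1 + k)).app X)) i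
  rw [← h2]
  exact bet_chain R' X a ha i k

/-- The Betti numbers of a tensor product with an object in one degree. -/
lemma bet_deg_tensor {T : C} {a : ℤ} (hT : R'.Deg T a) (V : C) (i : ℤ) :
    bet R' (T ⊗ V) i = bet R' T a * bet R' V (i - a) := by
  have h1 := hT.isIso_mu_shift (V⟦i⟧)
  have h2 : bet R' (T ⊗ V) i = Module.finrank E' (R'.H.obj (T ⊗ V⟦i⟧)) :=
    (LinearEquiv.finrank_eq (R'.H.mapIso (rShift T V i)).toLinearEquiv).symm
  have h3 : Module.finrank E' (R'.H.obj (T ⊗ V⟦i⟧)) =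
      Module.finrank E' (R'.H.obj (T⟦a⟧ ⊗ V⟦i⟧⟦-a⟧)) :=
    (LinearEquiv.finrank_eq (R'.H.mapIso (shiftTensorIso T (V⟦i⟧) a)).toLinearEquiv).symm
  have h4 : Module.finrank E' (R'.H.obj (T⟦a⟧ ⊗ V⟦i⟧⟦-a⟧)) =
      Module.finrank E' (R'.H.obj (T⟦a⟧) ⊗ R'.H.obj (V⟦i⟧⟦-a⟧) : ModuleCat.{w'} E') :=
    (LinearEquiv.finrank_eq (asIso (μ R'.H (T⟦a⟧) (V⟦i⟧⟦-a⟧))).toLinearEquiv).symm
  have h5 : Module.finrank E' (R'.H.obj (T⟦a⟧) ⊗ R'.H.obj (V⟦i⟧⟦-a⟧) : ModuleCat.{w'} E') =
      Module.finrank E' (R'.H.obj (T⟦a⟧)) * Module.finrank E' (R'.H.obj (V⟦i⟧⟦-a⟧)) :=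
    Module.finrank_tensorProduct
  rw [h2, h3, h4, h5, ← bet_shift R' V i (-a) (i - a) (by ring)]
  rfl

lemma bet_unit : bet R' (𝟙_ C) 0 = 1 := by
  rw [bet_zero]
  have h1 : Module.finrank E' (R'.H.obj (𝟙_ C)) = Module.finrank E' E' :=
    (LinearEquiv.finrank_eq (asIso (Functor.LaxMonoidal.ε R'.H)).toLinearEquiv).symm
  rwa [Module.finrank_self] at h1

lemma bet_invertible {T T' : C} {a : ℤ} (hT : R'.Deg T a) (e : T ⊗ T' ≅ 𝟙_ C) :
    bet R' T a = 1 := by
  have h1 := bet_deg_tensor R' hT T' 0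
  rw [bet_iso R' e, bet_unit] at h1
  exact Nat.eq_one_of_mul_eq_one_right h1.symm

variable (hR : CE t R) (ht : TensorCompat t)

include hR ht

lemma bet_pc_twist {T T' : C} (hT : R.Deg T (-2)) (hT' : R'.Deg T (-2)) (e : T ⊗ T' ≅ 𝟙_ C)
    (X : C) (k : ℕ) : ∀ q i : ℤ, bet R' ((pc t q).obj (twist T X k)) i =
      bet R' ((pc t (q + 2 * k)).obj X) (i + 2 * k) := by
  induction k with
  | zero =>
    intro q i
    simp only [twist, Nat.cast_zero, mul_zero, add_zero]
  | succ k ih =>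
    intro q i
    have h1 : twist T X (k + 1) ≅ T ⊗ twist T X k := β_ _ _
    obtain ⟨e2⟩ := pc_tensor hR ht (P := T) (c := 2) (hR.conc hT) (twist T X k) q (q + 2) rfl
    rw [bet_iso R' ((pc t q).mapIso h1 ≪≫ e2) i, bet_deg_tensor R' hT',
      bet_invertible R' hT' e, one_mul, ih,
      show q + 2 + 2 * (k : ℤ) = q + 2 * ((k + 1 : ℕ) : ℤ) by push_cast; ring,
      show i - -2 + 2 * (k : ℤ) = i + 2 * ((k + 1 : ℕ) : ℤ) by push_cast; ring]

omit ht in
lemma bet_pc (X : C) (q : ℤ) : bet R ((pc t q).obj X) q = bet R X q := by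
  have h1 := iso_le hR.ex (t := t) X q le_rfl
  have h2 := iso_ge hR.ex (t := t) ((t.truncLE q).obj X) q le_rfl
  have h3 := LinearEquiv.finrank_eq
    (asIso (R.H.map (((t.truncLEι q).app X)⟦q⟧'))).toLinearEquiv
  have h4 := LinearEquiv.finrank_eq
    (asIso (R.H.map (((t.truncGEπ q).app ((t.truncLE q).obj X))⟦q⟧'))).toLinearEquiv
  exact h4.symm.trans h3

omit ht in
lemma pc_isZero {X : C} {q : ℤ} (h : bet R X q = 0) : IsZero ((pc t q).obj X) := by
  apply hR.cons
  intro i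
  by_cases hi : i = q
  · subst hi
    rw [← bet_eq_zero_iff, bet_pc hR, h]
  · exact (pc_conc q X).deg hR.ex i hi

omit ht in
lemma bounded_t (X : C) : ∃ N : ℕ, t.IsLE X N ∧ t.IsGE X (-N) := by
  obtain ⟨N, hN⟩ := R.bounded X
  exact ⟨N, isLE_of hR.cons hR.ex fun i hi => hN i (by omega),
    isGE_of hR.cons hR.ex fun i hi => hN i (by omega)⟩

variable [CharZero E'] (hu : Hrt t (𝟙_ C))
  (hid : ∀ e : 𝟙_ C ⟶ 𝟙_ C, e ≫ e = e → e = 0 ∨ e = 𝟙 _)

include hu hid

/-- Generators with hard Lefschetz and equal Betti numbers are good. -/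
theorem good_of_lefschetz {T T' : C} (hT : R.Deg T (-2)) (hT' : R'.Deg T (-2))
    (eT : T ⊗ T' ≅ 𝟙_ C) {X : C} (e : ℤ)
    (hL : ∀ k : ℕ, ∃ L : X ⟶ twist T X k, IsIso (R.H.map (L⟦e - k⟧')))
    (hB : ∀ i : ℤ, bet R' X i = bet R X i) : Good t R' X := by
  obtain ⟨N, hN1, hN2⟩ := bounded_t hR X
  let K : ℕ := N + e.natAbs
  have hK1 : t.IsLE X (e + K) := t.isLE_of_le X N (e + K) (by omega)
  have hK2 : t.IsGE X (e - K) := t.isGE_of_ge X (e - K) (-N) (by omega)
  choose n hn using fun q : ℤ => bet_bounded R' ((pc t q).obj X)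
  let M : ℕ := ∑ q ∈ Finset.Icc (e - K) (e + K), (n q + q.natAbs)
  have hM : ∀ q ∈ Finset.Icc (e - K) (e + K), n q + q.natAbs ≤ M := fun q hq =>
    Finset.single_le_sum (f := fun q => n q + q.natAbs) (fun _ _ => Nat.zero_le _) hq
  have key := second_moment e K M (fun i => bet R X i)
    (fun p q => bet R' ((pc t q).obj X) (p + q)) ?_ ?_ ?_ ?_
  · intro q i hi
    rw [← bet_eq_zero_iff]
    by_cases hq : q ∈ Finset.Icc (e - K) (e + K)
    · have h1 := key (i - q) q hq (by omega)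
      rwa [sub_add_cancel] at h1
    · apply bet_isZero R'
      apply pc_isZero hR
      rw [bet_eq_zero_iff]
      rw [Finset.mem_Icc, not_and_or, not_le, not_le] at hq
      rcases hq with hq | hq
      · exact hR.ex.isGE hK2 q hq
      · exact hR.ex.isLE hK1 q hq
  · intro p q hq hp
    apply hn q
    have := hM q hq
    omega
  · intro i
    rw [← hB i]
    simp only [sub_add_cancel]
    exact bet_le_sum R' X (e - K) (e + K) hK2 hK1 (by omega) i
  · intro q
    have h1 := tot_le R' ht hR.ex hu hid (pc_conc q X).hrt M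
    have h2 : Module.finrank E (R.H.obj (((pc t q).obj X)⟦q⟧)) = bet R X q := bet_pc hR X q
    rw [h2, tot] at h1
    refine le_of_eq_of_le ?_ h1
    refine Finset.sum_congr rfl (fun p _ => ?_)
    exact (bet_shift R' _ q p (p + q) (by ring)).symm
  · intro p k
    obtain ⟨L, hL⟩ := hL k
    have h1 := isIso_pc hR L hL
    change bet R' ((pc t (e - k)).obj X) (p + (e - k)) = bet R' ((pc t (e + k)).obj X) (p + (e + k))
    rw [bet_iso R' (asIso ((pc t (e - k)).map L)), bet_pc_twist R' hR ht hT hT' eT,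
      show e - (k : ℤ) + 2 * k = e + k by ring,
      show p + (e - (k : ℤ)) + 2 * k = p + (e + k) by ring]

/-- If all objects are good, the other realisation is t-exact. -/
theorem exact_of_good (hG : ∀ X, Good t R' X) : TExact t R' := by
  constructor
  · intro X hX i hi
    obtain ⟨N, _, hN⟩ := bounded_t hR X
    rw [← bet_eq_zero_iff, ← Nat.le_zero]
    refine (bet_le_sum R' X (-N) 0 hN ⟨hX⟩ (by omega) i).trans (le_of_eq ?_)
    refine Finset.sum_eq_zero (fun q hq => ?_)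
    rw [Finset.mem_Icc] at hq
    rw [bet_eq_zero_iff]
    exact hG X q i (by omega)
  · intro X hX i hi
    obtain ⟨N, hN, _⟩ := bounded_t hR X
    rw [← bet_eq_zero_iff, ← Nat.le_zero]
    refine (bet_le_sum R' X 0 N ⟨hX⟩ hN (by omega) i).trans (le_of_eq ?_)
    refine Finset.sum_eq_zero (fun q hq => ?_)
    rw [Finset.mem_Icc] at hq
    rw [bet_eq_zero_iff]
    exact hG X q i (by omega)

/-- The dimension of an object of the heart does not depend on the realisation. -/
theorem finrank_eq_of_deg [CharZero E] {V : C} (hV : Hrt t V) (hd : R'.Deg V 0) :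
    Module.finrank E' (R'.H.obj V) = Module.finrank E (R.H.obj V) := by
  have hV0 : R.Deg V 0 := hR.ex.deg hV
  have h1 := H_trace hV0 (𝟙 V)
  have h2 := H_trace hd (𝟙 V)
  rw [CategoryTheory.Functor.map_id, ModuleCat.hom_id, LinearMap.trace_id] at h1 h2
  set n := Module.finrank E (R.H.obj V) with hn
  have h3 : tr (𝟙 V) - (n : ℤ) • 𝟙 (𝟙_ C) = 0 := by
    apply faithful_heart ht hR.ex hu hid hu hu
    have h4 : Functor.LaxMonoidal.ε R.H ≫ R.H.map (tr (𝟙 V) - (n : ℤ) • 𝟙 (𝟙_ C)) ≫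
        inv (Functor.LaxMonoidal.ε R.H) = 0 := by
      rw [Functor.map_sub, Functor.map_zsmul, CategoryTheory.Functor.map_id,
        Preadditive.sub_comp, Preadditive.comp_sub, Preadditive.zsmul_comp,
        Preadditive.comp_zsmul, Category.id_comp, IsIso.hom_inv_id]
      ext
      have h5 : ((Functor.LaxMonoidal.ε R.H ≫ R.H.map (tr (𝟙 V)) ≫
        inv (Functor.LaxMonoidal.ε R.H) - (n : ℤ) • 𝟙 (𝟙_ (ModuleCat.{w} E))).hom (1 : E) : E) =
        (n : E) - (n : ℤ) • (1 : E) := by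
        rw [← h1]
        rfl
      have h9 : (n : E) - (n : ℤ) • (1 : E) = 0 := by
        rw [zsmul_eq_mul, mul_one, Int.cast_natCast, sub_self]
      rw [h9] at h5
      exact h5
    have h6 : R.H.map (tr (𝟙 V) - (n : ℤ) • 𝟙 (𝟙_ C)) ≫ inv (Functor.LaxMonoidal.ε R.H) = 0 := by
      rw [← cancel_epi (Functor.LaxMonoidal.ε R.H), h4, comp_zero]
    rw [← cancel_mono (inv (Functor.LaxMonoidal.ε R.H)), h6, zero_comp]
  rw [sub_eq_zero] at h3
  rw [h3, Functor.map_zsmul, CategoryTheory.Functor.map_id, Preadditive.zsmul_comp,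
    Preadditive.comp_zsmul, Category.id_comp, IsIso.hom_inv_id] at h2
  have h7 : (((n : ℤ) • 𝟙 (𝟙_ (ModuleCat.{w'} E'))).hom (1 : E') : E') = (n : ℤ) • (1 : E') := rfl
  have h8 : ((n : ℤ) • (1 : E')) = (Module.finrank E' (R'.H.obj V) : E') := h7.symm.trans h2
  rw [zsmul_eq_mul, mul_one, Int.cast_natCast] at h8
  exact (Nat.cast_injective h8).symm

end

end Run7.h822.MT
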