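import Pool.Agent.Run7.h822.MT.Piece

/-!
# Objects of the heart which are concentrated in one degree for another realisation
-/

set_option autoImplicit false
set_option linter.unusedSectionVars false
set_option linter.unusedSimpArgs false
set_option backward.isDefEq.respectTransparency false
set_option backward.defeqAttrib.useBackward true

open CategoryTheory Limits MonoidalCategory Pretriangulated Triangulated TensorProduct

namespace Run7.h822.MT

open Pool.Agent.Y116.MT Pool.Agent.V1178.MT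

universe v u w w'

open Functor.LaxMonoidal

section Lad

variable {E : Type w} [Field E]

/-- Exactness in the middle. -/
def Mid {A B D : ModuleCat.{w} E} (f : A ⟶ B) (g : B ⟶ D) : Prop :=
  ∀ y : B, g.hom y = 0 → ∃ x : A, f.hom x = y

variable {A B D A' B' D' : ModuleCat.{w} E} {f : A ⟶ B} {g : B ⟶ D} {f' : A' ⟶ B'} {g' : B' ⟶ D'}
  {a : A ⟶ A'} {b : B ⟶ B'} {d : D ⟶ D'}

lemma mid_down (h1 : f ≫ b = a ≫ f') (h2 : g ≫ d = b ≫ g') [IsIso a] [IsIso b] [IsIso d]
    (h : Mid f g) : Mid f' g' := by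
  intro y' hy'
  obtain ⟨y, rfl⟩ := ((ConcreteCategory.isIso_iff_bijective b).1 inferInstance).2 y'
  have h3 : d.hom (g.hom y) = 0 := by
    have := LinearMap.congr_fun (congrArg ModuleCat.Hom.hom h2) y
    exact this.trans hy'
  have h4 : g.hom y = 0 :=
    ((ConcreteCategory.isIso_iff_bijective d).1 inferInstance).1 (h3.trans (map_zero _).symm)
  obtain ⟨x, rfl⟩ := h y h4
  exact ⟨a.hom x, (LinearMap.congr_fun (congrArg ModuleCat.Hom.hom h1) x).symm⟩

lemma mid_up (h1 : f ≫ b = a ≫ f') (h2 : g ≫ d = b ≫ g') [IsIso a] [IsIso b] [IsIso d]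
    (h : Mid f' g') : Mid f g := by
  intro y hy
  have h3 : g'.hom (b.hom y) = 0 := by
    have h4 := LinearMap.congr_fun (congrArg ModuleCat.Hom.hom h2) y
    have h5 : g'.hom (b.hom y) = d.hom (g.hom y) := h4.symm
    rw [h5, hy, map_zero]
  obtain ⟨x', hx'⟩ := h _ h3
  obtain ⟨x, rfl⟩ := ((ConcreteCategory.isIso_iff_bijective a).1 inferInstance).2 x'
  refine ⟨x, ((ConcreteCategory.isIso_iff_bijective b).1 inferInstance).1 ?_⟩
  exact (LinearMap.congr_fun (congrArg ModuleCat.Hom.hom h1) x).trans hx'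

end Lad

section

variable {C : Type u} [Category.{v} C] [Preadditive C] [HasZeroObject C] [HasShift C ℤ]
  [∀ n : ℤ, (shiftFunctor C n).Additive] [Pretriangulated C] [MonoidalCategory C]
  [SymmetricCategory C] [TensorTriangulated C] [MonoidalPreadditive C] [RightRigidCategory C]
  [IsTriangulated C] {E : Type w} [Field E] {R : Realisation C E} {t : TStructure C}

lemma cone_zero {X Y Z : C} {f : X ⟶ Y} {g : Y ⟶ Z} {h : Z ⟶ X⟦(1 : ℤ)⟧}
    (hT : Triangle.mk f g h ∈ distTriang C) (i : ℤ) (h0 : Epi (R.H.map (f⟦i⟧')))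
    (h1 : Mono (R.H.map (f⟦i + 1⟧'))) : IsZero (R.H.obj (Z⟦i⟧)) := by
  let _ := Functor.ShiftSequence.tautological R.H ℤ
  have h4 := (R.H.homologySequence_mono_shift_map_mor₁_iff _ hT i (i + 1) rfl).1 h1
  have h5 := (R.H.homologySequence_epi_shift_map_mor₂_iff _ hT i (i + 1) rfl).2 h4
  have h6 : R.H.map (g⟦i⟧') = 0 := (R.H.homologySequence_epi_shift_map_mor₁_iff _ hT i).1 h0
  have h7 : Epi (R.H.map (g⟦i⟧')) := h5
  rw [IsZero.iff_id_eq_zero, ← cancel_epi (R.H.map (g⟦i⟧')), h6, zero_comp, zero_comp]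

/-- The cone of an injective map of objects in degree `q` is in degree `q`. -/
lemma conc_cone_mono (hR : CE t R) {q : ℤ} {X Y Z : C} {f : X ⟶ Y} {g : Y ⟶ Z}
    {h : Z ⟶ X⟦(1 : ℤ)⟧} (hT : Triangle.mk f g h ∈ distTriang C) (hX : Conc t q X)
    (hY : Conc t q Y) (hf : Mono (R.H.map (f⟦q⟧'))) : Conc t q Z := by
  apply hR.conc
  intro i hi
  apply cone_zero hT i
  · have h1 := hY.deg hR.ex i hi
    exact ⟨fun a b _ => h1.eq_of_src a b⟩
  · by_cases hi' : i + 1 = q
    · rw [hi']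
      exact hf
    · have h1 := hX.deg hR.ex (i + 1) hi'
      exact ⟨fun a b _ => h1.eq_of_tgt a b⟩

/-- The cone of a surjective map of objects in degree `q` is in degree `q - 1`. -/
lemma conc_cone_epi (hR : CE t R) {q : ℤ} {X Y Z : C} {f : X ⟶ Y} {g : Y ⟶ Z}
    {h : Z ⟶ X⟦(1 : ℤ)⟧} (hT : Triangle.mk f g h ∈ distTriang C) (hX : Conc t q X)
    (hY : Conc t q Y) (hf : Epi (R.H.map (f⟦q⟧'))) : Conc t (q - 1) Z := by
  apply hR.conc
  intro i hi
  apply cone_zero hT i
  · by_cases hi' : i = q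
    · rw [hi']
      exact hf
    · have h1 := hY.deg hR.ex i hi'
      exact ⟨fun a b _ => h1.eq_of_src a b⟩
  · have h1 := hX.deg hR.ex (i + 1) (by omega)
    exact ⟨fun a b _ => h1.eq_of_tgt a b⟩

variable {E' : Type w'} [Field E'] [CharZero E'] (R' : Realisation C E')
  (hR : CE t R) (ht : TensorCompat t) (hu : Hrt t (𝟙_ C))
  (hid : ∀ e : 𝟙_ C ⟶ 𝟙_ C, e ≫ e = e → e = 0 ∨ e = 𝟙 _)

include hR ht hu hid

/-- Parity. -/
lemma conc_odd {q : ℤ} {V : C} (hV : Conc t q V) (i : ℤ) (hi : Odd (i - q)) :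
    IsZero (R'.H.obj (V⟦i⟧)) :=
  (isZero_odd R' ht hR.ex hu hid hV.hrt (i - q) hi).of_iso
    (R'.H.mapIso ((shiftFunctorAdd' C q (i - q) i (by omega)).app V))

lemma deg_sub {q : ℤ} {V W : C} (hV : Conc t q V) (hW : Conc t q W) (f : V ⟶ W)
    (hf : Mono (R.H.map (f⟦q⟧'))) (hd : R'.Deg W q) : R'.Deg V q := by
  obtain ⟨Q, g, h, hT⟩ := distinguished_cocone_triangle f
  have hQ := conc_cone_mono hR hT hV hW hf
  intro i hi
  rcases Int.even_or_odd (i - q) with hp | hp
  · refine hz1 R'.H hT i (hd i hi) (conc_odd R' hR ht hu hid hQ (i - 1) ?_)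
    have : i - 1 - q = (i - q) - 1 := by ring
    rw [this]
    exact hp.sub_odd odd_one
  · exact conc_odd R' hR ht hu hid hV i hp

lemma deg_quot {q : ℤ} {V W : C} (hV : Conc t q V) (hW : Conc t q W) (f : V ⟶ W)
    (hf : Epi (R.H.map (f⟦q⟧'))) (hd : R'.Deg V q) : R'.Deg W q := by
  obtain ⟨Q, g, h, hT⟩ := distinguished_cocone_triangle f
  have hQ := conc_cone_epi hR hT hV hW hf
  intro i hi
  rcases Int.even_or_odd (i - q) with hp | hp
  · refine hz2 R'.H hT i (hd i hi) (conc_odd R' hR ht hu hid hQ i ?_)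
    have : i - (q - 1) = (i - q) + 1 := by ring
    rw [this]
    exact hp.add_one
  · exact conc_odd R' hR ht hu hid hW i hp

lemma deg_mid {q : ℤ} {V W U : C} (hV : Conc t q V) (hW : Conc t q W) (hU : Conc t q U)
    (f : V ⟶ W) (g : W ⟶ U) (hfg : f ≫ g = 0)
    (hex : Mid (R.H.map (f⟦q⟧')) (R.H.map (g⟦q⟧')))
    (hdV : R'.Deg V q) (hdU : R'.Deg U q) : R'.Deg W q := by
  obtain ⟨S, s, δ, hT⟩ := distinguished_cocone_triangle f
  obtain ⟨g', hg'⟩ := ye2 hT g hfg
  have hS : t.IsLE S q := isLE3 hT (@TStructure.isLE_of_le _ _ _ _ _ _ _ t V q (q + 1)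
    (by omega) hV.1) hW.1
  let π := (t.truncGEπ q).app S
  have hT2 := t.triangleLEGE_distinguished (q - 1) q (by omega) S
  obtain ⟨g'', hg''⟩ : ∃ g'' : (t.truncGE q).obj S ⟶ U, g' = π ≫ g'' := by
    refine ye2 hT2 g' ?_
    have h1 : t.IsLE ((t.truncLE (q - 1)).obj S) (q - 1) := inferInstance
    exact t.zero_of_isLE_of_isGE _ (q - 1) q (by omega) h1 hU.2
  have hQ : Conc t q ((t.truncGE q).obj S) := ⟨inferInstance, inferInstance⟩
  have hπ : IsIso (R.H.map (π⟦q⟧')) := iso_ge hR.ex S q le_rfl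
  have hs : Epi (R.H.map (s⟦q⟧')) := hepi2 R.H hT q (hV.deg hR.ex (q + 1) (by omega))
  let p : W ⟶ (t.truncGE q).obj S := s ≫ π
  have hp : Epi (R.H.map (p⟦q⟧')) := by
    have h1 : R.H.map (p⟦q⟧') = R.H.map (s⟦q⟧') ≫ R.H.map (π⟦q⟧') := by
      rw [← Functor.map_comp, ← Functor.map_comp]
    rw [h1]
    infer_instance
  have hfp : f ≫ p = 0 := by
    change f ≫ s ≫ π = 0
    rw [← Category.assoc, comp12 hT, zero_comp]
  have hker : ∀ y, (R.H.map (p⟦q⟧')).hom y = 0 → ∃ x, (R.H.map (f⟦q⟧')).hom x = y := by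
    intro y hy
    apply hexact R hT q y
    apply ((ConcreteCategory.isIso_iff_bijective (R.H.map (π⟦q⟧'))).1 inferInstance).1
    have h1 : R.H.map (s⟦q⟧') ≫ R.H.map (π⟦q⟧') = R.H.map (p⟦q⟧') := by
      rw [← Functor.map_comp, ← Functor.map_comp]
    exact (LinearMap.congr_fun (congrArg ModuleCat.Hom.hom h1) y).trans
      (hy.trans (map_zero _).symm)
  have hg : g = p ≫ g'' := by
    change g = (s ≫ π) ≫ g''
    rw [Category.assoc, ← hg'', ← hg']
  have hgH : R.H.map (g⟦q⟧') = R.H.map (p⟦q⟧') ≫ R.H.map (g''⟦q⟧') := by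
    rw [← Functor.map_comp, ← Functor.map_comp, ← hg]
  have hfpH : R.H.map (f⟦q⟧') ≫ R.H.map (p⟦q⟧') = 0 := by
    rw [← Functor.map_comp, ← Functor.map_comp, hfp, Functor.map_zero, Functor.map_zero]
  have hmono : Mono (R.H.map (g''⟦q⟧')) := by
    rw [ModuleCat.mono_iff_injective, injective_iff_map_eq_zero]
    intro x hx
    obtain ⟨y, rfl⟩ := (ModuleCat.epi_iff_surjective _).1 hp x
    have h1 : (R.H.map (g⟦q⟧')).hom y = 0 :=
      (LinearMap.congr_fun (congrArg ModuleCat.Hom.hom hgH) y).trans hx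
    obtain ⟨z, rfl⟩ := hex y h1
    exact LinearMap.congr_fun (congrArg ModuleCat.Hom.hom hfpH) z
  have hdQ : R'.Deg ((t.truncGE q).obj S) q := deg_sub R' hR ht hu hid hQ hU g'' hmono hdU
  obtain ⟨I, a, b, hTI⟩ := distinguished_cocone_triangle₁ p
  have hI1 := conc_cone_epi hR (rotD hTI) hW hQ hp
  have hI : Conc t q I := by
    apply hR.conc
    intro i hi
    exact (hI1.deg hR.ex (i - 1) (by omega)).of_iso
      (R.H.mapIso ((shiftFunctorAdd' C 1 (i - 1) i (by omega)).app I))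
  obtain ⟨l, hl⟩ := ce2 hTI f hfp
  have ha : Mono (R.H.map (a⟦q⟧')) := hmono1 R.H hTI q (hQ.deg hR.ex (q - 1) (by omega))
  have hlH : R.H.map (f⟦q⟧') = R.H.map (l⟦q⟧') ≫ R.H.map (a⟦q⟧') := by
    rw [← Functor.map_comp, ← Functor.map_comp, ← hl]
  have hepi : Epi (R.H.map (l⟦q⟧')) := by
    rw [ModuleCat.epi_iff_surjective]
    intro y
    obtain ⟨z, hz⟩ := hker ((R.H.map (a⟦q⟧')).hom y) (hcomp R hTI q y)
    refine ⟨z, (ModuleCat.mono_iff_injective _).1 ha ?_⟩
    exact (LinearMap.congr_fun (congrArg ModuleCat.Hom.hom hlH) z).symm.trans hz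
  have hdI : R'.Deg I q := deg_quot R' hR ht hu hid hV hI l hepi hdV
  intro i hi
  exact hz2 R'.H hTI i (hdI i hi) (hdQ i hi)

omit hR ht hu hid in
/-- The objects all of whose cohomology objects are in the right degree for the realisation. -/
def Good (t : TStructure C) (R' : Realisation C E') : ObjectProperty C := fun X =>
  ∀ q : ℤ, R'.Deg ((pc t q).obj X) q

omit hR ht hu hid in
lemma deg_of_isZero {X : C} (h : IsZero X) (q : ℤ) : R'.Deg X q := fun i _ =>
  R'.H.map_isZero ((shiftFunctor C i).map_isZero h)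

lemma good_ext {X Y Z : C} {f : X ⟶ Y} {g : Y ⟶ Z} {h : Z ⟶ X⟦(1 : ℤ)⟧}
    (hT : Triangle.mk f g h ∈ distTriang C) (hX : Good t R' X) (hZ : Good t R' Z) :
    Good t R' Y := by
  intro q
  refine deg_mid R' hR ht hu hid (pc_conc q X) (pc_conc q Y) (pc_conc q Z) ((pc t q).map f)
    ((pc t q).map g) ?_ ?_ (hX q) (hZ q)
  · rw [← Functor.map_comp, comp12 hT, Functor.map_zero]
  · have h0 : Mid (R.H.map (f⟦q⟧')) (R.H.map (g⟦q⟧')) := hexact R hT q
    have i1 := fun W : C => iso_le hR.ex (t := t) W q (le_refl q)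
    have i2 := fun W : C => iso_ge hR.ex (t := t) W q (le_refl q)
    have n1 : ∀ {A B : C} (a : A ⟶ B), R.H.map (((t.truncLE q).map a)⟦q⟧') ≫
        R.H.map (((t.truncLEι q).app B)⟦q⟧') =
        R.H.map (((t.truncLEι q).app A)⟦q⟧') ≫ R.H.map (a⟦q⟧') := by
      intro A B a
      rw [← Functor.map_comp, ← Functor.map_comp, ← Functor.map_comp, ← Functor.map_comp]
      congr 2
      exact (t.truncLEι q).naturality a
    have n2 : ∀ {A B : C} (a : A ⟶ B), R.H.map (a⟦q⟧') ≫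
        R.H.map (((t.truncGEπ q).app B)⟦q⟧') =
        R.H.map (((t.truncGEπ q).app A)⟦q⟧') ≫ R.H.map (((t.truncGE q).map a)⟦q⟧') := by
      intro A B a
      rw [← Functor.map_comp, ← Functor.map_comp, ← Functor.map_comp, ← Functor.map_comp]
      congr 2
      exact (t.truncGEπ q).naturality a
    have h1 : Mid (R.H.map (((t.truncLE q).map f)⟦q⟧')) (R.H.map (((t.truncLE q).map g)⟦q⟧')) := by
      have := i1 X
      have := i1 Y
      have := i1 Z
      exact mid_up (n1 f) (n1 g) h0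
    have := i2 ((t.truncLE q).obj X)
    have := i2 ((t.truncLE q).obj Y)
    have := i2 ((t.truncLE q).obj Z)
    exact mid_down (n2 ((t.truncLE q).map f)) (n2 ((t.truncLE q).map g)) h1

omit ht hu hid in
lemma good_shift {X : C} (hX : Good t R' X) (a : ℤ) : Good t R' (X⟦a⟧) := by
  intro q
  obtain ⟨e⟩ := pc_shift hR X a q (a + q) rfl
  exact ((hX (a + q)).shift a q rfl).iso e.symm

omit hR ht hu hid in
lemma good_retract {X Y : C} (hX : Good t R' X) (i : Y ⟶ X) (r : X ⟶ Y) (hir : i ≫ r = 𝟙 _) :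
    Good t R' Y := by
  intro q
  refine (hX q).retract ((pc t q).map i) ((pc t q).map r) ?_
  rw [← Functor.map_comp, hir, CategoryTheory.Functor.map_id]

omit hR ht hu hid in
lemma good_zero {X : C} (hX : IsZero X) : Good t R' X := fun q =>
  deg_of_isZero R' ((pc t q).map_isZero hX) q

end

end Run7.h822.MT
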