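import Pool.Agent.V1178.MT.Main

/-!
# Signed symmetrizers of a tensor product
-/

set_option autoImplicit false
set_option linter.unusedSectionVars false
set_option linter.unusedSimpArgs false
set_option backward.isDefEq.respectTransparency false
set_option backward.defeqAttrib.useBackward true

open CategoryTheory Limits MonoidalCategory Pretriangulated Triangulated

namespace Run7.h822.MT

open Pool.Agent.Y116.MT Pool.Agent.V1178.MT

universe v u w v' u'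

section Sym

variable {C : Type u} [Category.{v} C] [MonoidalCategory C] [SymmetricCategory C]

/-- The signed symmetrizer; the sign `s = -1` gives the antisymmetrizer. -/
def asym [Preadditive C] (s : ℤ) (X Z : C) : ∀ n : ℕ, (pw X Z n ⟶ pw X Z n)
  | 0 => 𝟙 _
  | n + 1 => ∑ i : Fin (n + 1), (s ^ (n + i.val)) • (mv X Z n i ≫ (asym s X Z n ▷ Z))

lemma asym_neg_one [Preadditive C] (X Z : C) (n : ℕ) : asym (-1) X Z n = alt X Z n := by
  induction n with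
  | zero => rfl
  | succ n ih => simp only [asym, alt, ih]

/-- The comparison of powers of a tensor product. -/
def mrg (X Z Y L : C) : ∀ n : ℕ, pw X Z n ⊗ pw Y L n ⟶ pw (X ⊗ Y) (Z ⊗ L) n
  | 0 => 𝟙 _
  | n + 1 => tensorμ (pw X Z n) Z (pw Y L n) L ≫ (mrg X Z Y L n ▷ (Z ⊗ L))

instance isIso_tensorμ (X₁ X₂ Y₁ Y₂ : C) : IsIso (tensorμ X₁ X₂ Y₁ Y₂) :=
  ⟨tensorδ X₁ X₂ Y₁ Y₂, tensorμ_tensorδ _ _ _ _, tensorδ_tensorμ _ _ _ _⟩

instance isIso_mrg (X Z Y L : C) (n : ℕ) : IsIso (mrg X Z Y L n) := by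
  induction n with
  | zero => simp only [mrg]; infer_instance
  | succ n ih => simp only [mrg]; infer_instance

lemma exch_mrg (W Z W' L : C) :
    ((exch W Z Z).hom ⊗ₘ (exch W' L L).hom) ≫ tensorμ (W ⊗ Z) Z (W' ⊗ L) L ≫
      (tensorμ W Z W' L ▷ (Z ⊗ L)) =
    tensorμ (W ⊗ Z) Z (W' ⊗ L) L ≫ (tensorμ W Z W' L ▷ (Z ⊗ L)) ≫
      (exch (W ⊗ W') (Z ⊗ L) (Z ⊗ L)).hom := by
  have hA := associator_monoidal W Z Z W' L L
  have h1 : tensorμ (W ⊗ Z) Z (W' ⊗ L) L ≫ (tensorμ W Z W' L ▷ (Z ⊗ L)) =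
      ((α_ W Z Z).hom ⊗ₘ (α_ W' L L).hom) ≫ tensorμ W (Z ⊗ Z) W' (L ⊗ L) ≫
        ((W ⊗ W') ◁ tensorμ Z Z L L) ≫ (α_ (W ⊗ W') (Z ⊗ L) (Z ⊗ L)).inv := by
    rw [← cancel_mono (α_ (W ⊗ W') (Z ⊗ L) (Z ⊗ L)).hom]
    simp only [Category.assoc, Iso.inv_hom_id, Category.comp_id]
    exact hA
  have h2 : (tensorμ Z Z L L) ≫ (β_ (Z ⊗ L) (Z ⊗ L)).hom =
      ((β_ Z Z).hom ⊗ₘ (β_ L L).hom) ≫ tensorμ Z Z L L :=
    SymmetricCategory.tensorμ_braid_swap Z L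
  have h3 : (W ◁ (β_ Z Z).hom ⊗ₘ W' ◁ (β_ L L).hom) ≫ tensorμ W (Z ⊗ Z) W' (L ⊗ L) =
      tensorμ W (Z ⊗ Z) W' (L ⊗ L) ≫ (W ⊗ W') ◁ ((β_ Z Z).hom ⊗ₘ (β_ L L).hom) := by
    have h := tensorμ_natural (𝟙 W) (β_ Z Z).hom (𝟙 W') (β_ L L).hom
    simpa only [id_tensorHom, tensorHom_id, id_whiskerRight] using h
  have hR : tensorμ (W ⊗ Z) Z (W' ⊗ L) L ≫ (tensorμ W Z W' L ▷ (Z ⊗ L)) ≫
      (exch (W ⊗ W') (Z ⊗ L) (Z ⊗ L)).hom =
      ((α_ W Z Z).hom ⊗ₘ (α_ W' L L).hom) ≫ (W ◁ (β_ Z Z).hom ⊗ₘ W' ◁ (β_ L L).hom) ≫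
        tensorμ W (Z ⊗ Z) W' (L ⊗ L) ≫ ((W ⊗ W') ◁ tensorμ Z Z L L) ≫
        (α_ (W ⊗ W') (Z ⊗ L) (Z ⊗ L)).inv := by
    rw [← Category.assoc (tensorμ (W ⊗ Z) Z (W' ⊗ L) L), h1]
    simp only [exch, Iso.trans_hom, whiskerLeftIso_hom, Iso.symm_hom, Category.assoc,
      Iso.inv_hom_id_assoc]
    rw [← MonoidalCategory.whiskerLeft_comp_assoc, h2, MonoidalCategory.whiskerLeft_comp_assoc,
      ← Category.assoc (tensorμ W (Z ⊗ Z) W' (L ⊗ L)), ← h3, Category.assoc]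
  rw [hR, h1]
  simp only [exch, Iso.trans_hom, whiskerLeftIso_hom, Iso.symm_hom]
  rw [← tensorHom_comp_tensorHom_assoc, ← tensorHom_comp_tensorHom_assoc,
    tensorHom_comp_tensorHom_assoc (α_ W Z Z).inv]
  simp

lemma mrg_succ_natural {X Z Y L : C} (n : ℕ) {f : pw X Z n ⟶ pw X Z n}
    {g : pw (X ⊗ Y) (Z ⊗ L) n ⟶ pw (X ⊗ Y) (Z ⊗ L) n}
    (h : (f ▷ pw Y L n) ≫ mrg X Z Y L n = mrg X Z Y L n ≫ g) :
    ((f ▷ Z) ▷ pw Y L (n + 1)) ≫ mrg X Z Y L (n + 1) =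
      mrg X Z Y L (n + 1) ≫ (g ▷ (Z ⊗ L)) := by
  have h1 : ((f ▷ Z) ▷ pw Y L (n + 1)) ≫ tensorμ (pw X Z n) Z (pw Y L n) L =
      tensorμ (pw X Z n) Z (pw Y L n) L ≫ ((f ▷ pw Y L n) ▷ (Z ⊗ L)) := by
    have h := tensorμ_natural f (𝟙 Z) (𝟙 (pw Y L n)) (𝟙 L)
    simpa only [id_tensorHom, tensorHom_id, id_whiskerRight] using h
  have h2 : mrg X Z Y L (n + 1) = tensorμ (pw X Z n) Z (pw Y L n) L ≫
    (mrg X Z Y L n ▷ (Z ⊗ L)) := rfl
  rw [h2, ← Category.assoc, h1, Category.assoc, ← comp_whiskerRight, h, comp_whiskerRight,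
    Category.assoc]

end Sym

section Pre

variable {C : Type u} [Category.{v} C] [MonoidalCategory C] [SymmetricCategory C]
  [Preadditive C] [MonoidalPreadditive C]

lemma exch_sign {L : C} {s : ℤ} (hs : (β_ L L).hom = s • 𝟙 _) (W : C) :
    (exch W L L).hom = s • 𝟙 _ := by
  simp only [exch, Iso.trans_hom, whiskerLeftIso_hom, Iso.symm_hom, hs]
  rw [wl_zsmul, MonoidalCategory.whiskerLeft_id, Preadditive.zsmul_comp, Preadditive.comp_zsmul,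
    Category.id_comp, Iso.hom_inv_id]

lemma exch_mrg_sign {L : C} {s : ℤ} (hs : (β_ L L).hom = s • 𝟙 _) (X Z Y : C) (n : ℕ) :
    s • (((exch (pw X Z n) Z Z).hom ▷ pw Y L (n + 1 + 1)) ≫ mrg X Z Y L (n + 1 + 1)) =
      mrg X Z Y L (n + 1 + 1) ≫ (exch (pw (X ⊗ Y) (Z ⊗ L) n) (Z ⊗ L) (Z ⊗ L)).hom := by
  have h1 : mrg X Z Y L (n + 1 + 1) = tensorμ (pw X Z n ⊗ Z) Z (pw Y L n ⊗ L) L ≫
      (tensorμ (pw X Z n) Z (pw Y L n) L ▷ (Z ⊗ L)) ≫
      ((mrg X Z Y L n ▷ (Z ⊗ L)) ▷ (Z ⊗ L)) := by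
    simp [mrg]
  have h2 := exch_mrg (pw X Z n) Z (pw Y L n) L
  have h3 : ((exch (pw X Z n) Z Z).hom ⊗ₘ (exch (pw Y L n) L L).hom) =
      s • ((exch (pw X Z n) Z Z).hom ▷ pw Y L (n + 1 + 1)) := by
    rw [exch_sign hs, MonoidalCategory.tensorHom_def, wl_zsmul, MonoidalCategory.whiskerLeft_id,
      Preadditive.comp_zsmul, Category.comp_id]
  have h4 : ((mrg X Z Y L n ▷ (Z ⊗ L)) ▷ (Z ⊗ L)) ≫
      (exch (pw (X ⊗ Y) (Z ⊗ L) n) (Z ⊗ L) (Z ⊗ L)).hom =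
      (exch (pw X Z n ⊗ pw Y L n) (Z ⊗ L) (Z ⊗ L)).hom ≫
        ((mrg X Z Y L n ▷ (Z ⊗ L)) ▷ (Z ⊗ L)) := exch_natural_first _ _ _
  rw [h1]
  simp only [Category.assoc]
  rw [h4, ← Preadditive.zsmul_comp, ← h3]
  simp only [← Category.assoc]
  congr 1
  simpa only [Category.assoc] using h2

lemma mv_mrg {L : C} {s : ℤ} (hs : (β_ L L).hom = s • 𝟙 _) (h1 : s * s = 1) (X Z Y : C)
    (n : ℕ) : ∀ i : Fin (n + 1),
    (s ^ (n + i.val)) • ((mv X Z n i ▷ pw Y L (n + 1)) ≫ mrg X Z Y L (n + 1)) =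
      mrg X Z Y L (n + 1) ≫ mv (X ⊗ Y) (Z ⊗ L) n i := by
  have hpow : ∀ k : ℕ, s ^ (k + k) = 1 := by
    intro k
    rw [← two_mul, pow_mul, pow_two, h1, one_pow]
  induction n with
  | zero =>
    intro i
    obtain rfl : i = 0 := Subsingleton.elim (α := Fin 1) _ _
    simp [mv]
  | succ n ih =>
    intro i
    refine Fin.lastCases ?_ (fun j => ?_) i
    · rw [mv_last, mv_last, Fin.val_last, hpow, one_zsmul, id_whiskerRight, Category.id_comp,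
        Category.comp_id]
    · rw [mv_castSucc, mv_castSucc, Fin.val_castSucc, comp_whiskerRight, Category.assoc]
      have h2 := ih j
      have h3 : (((s ^ (n + j.val)) • mv X Z n j) ▷ pw Y L (n + 1)) ≫ mrg X Z Y L (n + 1) =
          mrg X Z Y L (n + 1) ≫ mv (X ⊗ Y) (Z ⊗ L) n j := by
        rw [wr_zsmul, Preadditive.zsmul_comp, h2]
      have h4 := mrg_succ_natural (n + 1) h3
      rw [← Category.assoc (mrg X Z Y L (n + 1 + 1)), ← h4, Category.assoc, ← exch_mrg_sign hs,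
        wr_zsmul, wr_zsmul, Preadditive.zsmul_comp, Preadditive.comp_zsmul, smul_smul]
      congr 1
      ring

/-- The signed symmetrizers of a tensor product with an object of sign `s`. -/
theorem asym_mrg {L : C} {s : ℤ} (hs : (β_ L L).hom = s • 𝟙 _) (h1 : s * s = 1) (s' : ℤ)
    (X Z Y : C) (n : ℕ) :
    (asym (s * s') X Z n ▷ pw Y L n) ≫ mrg X Z Y L n =
      mrg X Z Y L n ≫ asym s' (X ⊗ Y) (Z ⊗ L) n := by
  induction n with
  | zero => simp [asym, mrg]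
  | succ n ih =>
    have h2 := mrg_succ_natural n ih
    simp only [asym, Preadditive.comp_sum]
    rw [show (∑ i : Fin (n + 1), ((s * s') ^ (n + i.val)) •
        (mv X Z n i ≫ asym (s * s') X Z n ▷ Z)) ▷ (pw Y L (n + 1)) =
        ∑ i : Fin (n + 1), (((s * s') ^ (n + i.val)) •
        (mv X Z n i ≫ asym (s * s') X Z n ▷ Z)) ▷ (pw Y L (n + 1)) from
        (tensorRight (pw Y L (n + 1))).map_sum _ _, Preadditive.sum_comp]
    refine Finset.sum_congr rfl (fun i _ => ?_)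
    rw [wr_zsmul, Preadditive.zsmul_comp, Preadditive.comp_zsmul, comp_whiskerRight,
      Category.assoc, h2, ← Category.assoc (mrg X Z Y L (n + 1)), ← mv_mrg hs h1,
      Preadditive.zsmul_comp, smul_smul, Category.assoc, mul_pow, mul_comm (s ^ _)]

end Pre

end Run7.h822.MT
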