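import Pool.Agent.Run7.h822.MT.Two
import Pool.Agent.Run7.h822.MT.Defs3

/-!
# Independence of traces, and other realisations
-/

set_option autoImplicit false
set_option linter.unusedSectionVars false
set_option linter.unusedSimpArgs false
set_option backward.isDefEq.respectTransparency false
set_option backward.defeqAttrib.useBackward true

open CategoryTheory Limits MonoidalCategory Pretriangulated Triangulated TensorProduct

namespace Run7.h822.MT

open Pool.Agent.Y116.MT Pool.Agent.V1178.MT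

universe v u w w'

open Functor.LaxMonoidal

lemma trace_comm {E : Type w} [Field E] {M N : ModuleCat.{w} E} (f : M ⟶ M) (g : N ⟶ N)
    (a : M ⟶ N) [IsIso a] (h : f ≫ a = a ≫ g) :
    LinearMap.trace E M f.hom = LinearMap.trace E N g.hom := by
  have h1 : f = a ≫ g ≫ inv a := by
    rw [← Category.assoc, ← h, Category.assoc, IsIso.hom_inv_id, Category.comp_id]
  rw [h1]
  exact LinearMap.trace_conj' g.hom (asIso a).toLinearEquiv.symm

section

variable {C : Type u} [Category.{v} C] [Preadditive C] [HasZeroObject C] [HasShift C ℤ]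
  [∀ n : ℤ, (shiftFunctor C n).Additive] [Pretriangulated C] [MonoidalCategory C]
  [SymmetricCategory C] [TensorTriangulated C] [MonoidalPreadditive C] [RightRigidCategory C]
  [IsTriangulated C] {E : Type w} [Field E] {R : Realisation C E}
  {t : TStructure C}

lemma traceH_pc (he : TExact t R) {X : C} (f : X ⟶ X) (i : ℤ) :
    traceH R ((pc t i).map f) i = traceH R f i := by
  have i1 := iso_le he X i le_rfl
  have i2 := iso_ge he ((t.truncLE i).obj X) i le_rfl
  have n1 : R.H.map (((t.truncLE i).map f)⟦i⟧') ≫ R.H.map (((t.truncLEι i).app X)⟦i⟧') =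
      R.H.map (((t.truncLEι i).app X)⟦i⟧') ≫ R.H.map (f⟦i⟧') := by
    rw [← Functor.map_comp, ← Functor.map_comp, ← Functor.map_comp, ← Functor.map_comp]
    congr 2
    exact (t.truncLEι i).naturality f
  have n2 : R.H.map (((t.truncLE i).map f)⟦i⟧') ≫
      R.H.map (((t.truncGEπ i).app ((t.truncLE i).obj X))⟦i⟧') =
      R.H.map (((t.truncGEπ i).app ((t.truncLE i).obj X))⟦i⟧') ≫
      R.H.map (((t.truncGE i).map ((t.truncLE i).map f))⟦i⟧') := by
    rw [← Functor.map_comp, ← Functor.map_comp, ← Functor.map_comp, ← Functor.map_comp]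
    congr 2
    exact (t.truncGEπ i).naturality ((t.truncLE i).map f)
  exact (trace_comm _ _ _ n2).symm.trans (trace_comm _ _ _ n1)

/-- The trace of `f` in degree `i` comes from an endomorphism of the unit. -/
lemma traceH_scalar (he : TExact t R) {X : C} (f : X ⟶ X) (i : ℤ) :
    traceH R f i = scalar R (tr (((pc t i).map f)⟦i⟧')) := by
  have hV : R.Deg (((pc t i).obj X)⟦i⟧) 0 := he.deg (pc_conc i X).hrt
  rw [scalar, H_trace hV, ← traceH_pc he f i]
  rfl

end

section

variable {C : Type u} [Category.{v} C] [Preadditive C] [HasZeroObject C] [HasShift C ℤ]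
  [∀ n : ℤ, (shiftFunctor C n).Additive] [Pretriangulated C] [MonoidalCategory C]
  [SymmetricCategory C] [TensorTriangulated C] [MonoidalPreadditive C] [RightRigidCategory C]
  [IsTriangulated C]
  (hid : ∀ e : 𝟙_ C ⟶ 𝟙_ C, e ≫ e = e → e = 0 ∨ e = 𝟙 _)
  {Λ : Type*} {E : Λ → Type w} [∀ l, Field (E l)] [∀ l, CharZero (E l)]
  (R : ∀ l, Realisation C (E l)) (l₀ : Λ) (Q : ObjectProperty C) (T : C)
  (hQ : PureGenerators Q T R l₀) (t : TStructure C)

include hid hQ

theorem traces (h : IsMotivic t (fun _ : Unit => R l₀)) {X : C} (f : X ⟶ X) (i : ℤ) :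
    ∃ τ : 𝟙_ C ⟶ 𝟙_ C, ∀ l, traceH (R l) f i = scalar (R l) τ :=
  ⟨tr (((pc t i).map f)⟦i⟧'), fun l => traceH_scalar (exact_other hid R l₀ Q T hQ t h l) f i⟩

end

section

variable {C : Type u} [Category.{v} C] [Preadditive C] [HasZeroObject C] [HasShift C ℤ]
  [∀ n : ℤ, (shiftFunctor C n).Additive] [Pretriangulated C] [MonoidalCategory C]
  [SymmetricCategory C] [TensorTriangulated C] [MonoidalPreadditive C] [RightRigidCategory C]
  [IsTriangulated C] {E : Type w} [Field E] {R : Realisation C E} {t : TStructure C}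
  {E' : Type w'} [Field E'] [CharZero E'] (R' : Realisation C E')
  (hid : ∀ e : 𝟙_ C ⟶ 𝟙_ C, e ≫ e = e → e = 0 ∨ e = 𝟙 _)

include hid

/-- The total Betti number is maximal for the realisation which has a motivic t-structure. -/
theorem tot_max (hR : CE t R) (ht : TensorCompat t) (hu : Hrt t (𝟙_ C)) (X : C) :
    ∑ᶠ i : ℤ, bet R' X i ≤ ∑ᶠ i : ℤ, bet R X i := by
  obtain ⟨N1, hN1⟩ := bet_bounded R X
  obtain ⟨N2, hN2⟩ := bet_bounded R' X
  let N := max N1 N2
  have hN : ∀ i : ℤ, N < i.natAbs → bet R X i = 0 := fun i hi =>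
    hN1 i (lt_of_le_of_lt (le_max_left _ _) hi)
  have hN' : ∀ i : ℤ, N < i.natAbs → bet R' X i = 0 := fun i hi =>
    hN2 i (lt_of_le_of_lt (le_max_right _ _) hi)
  have e1 : ∑ᶠ i : ℤ, bet R X i = tot R X N := by
    apply finsum_eq_sum_of_support_subset
    intro i hi
    rw [Finset.coe_Icc, Set.mem_Icc]
    by_contra hc
    exact hi (hN i (by omega))
  have e2 : ∑ᶠ i : ℤ, bet R' X i = tot R' X N := by
    apply finsum_eq_sum_of_support_subset
    intro i hi
    rw [Finset.coe_Icc, Set.mem_Icc]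
    by_contra hc
    exact hi (hN' i (by omega))
  rw [e1, e2]
  have h1 : t.IsLE X N := isLE_of hR.cons hR.ex fun i hi =>
    (bet_eq_zero_iff R X i).1 (hN i (by omega))
  have h2 : t.IsGE X (-N) := isGE_of hR.cons hR.ex fun i hi =>
    (bet_eq_zero_iff R X i).1 (hN i (by omega))
  calc tot R' X N ≤ ∑ i ∈ Finset.Icc (-(N : ℤ)) N, ∑ q ∈ Finset.Icc (-(N : ℤ)) N,
        bet R' ((pc t q).obj X) i := Finset.sum_le_sum fun i _ =>
          bet_le_sum R' X (-N) N h2 h1 (by omega) i
    _ = ∑ q ∈ Finset.Icc (-(N : ℤ)) N, tot R' ((pc t q).obj X) N := Finset.sum_comm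
    _ ≤ ∑ q ∈ Finset.Icc (-(N : ℤ)) N, bet R X q := Finset.sum_le_sum fun q _ => by
          rw [← bet_pc hR X q]
          exact tot_conc hR ht hu hid (pc_conc q X) N
    _ = tot R X N := rfl

/-- The realisation of a non zero object of the heart is not zero. -/
theorem heart_faithful_other [CharZero E] (hR : CE t R) (ht : TensorCompat t)
    (hu : Hrt t (𝟙_ C)) {X : C}
    (hX : Hrt t X) (h0 : ∀ i : ℤ, bet R' X i = 0) : IsZero X := by
  by_contra hc
  apply end_ne_zero (R' := R') hR ht hu hid hX hc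
  rw [ModuleCat.isZero_iff_subsingleton]
  have h1 : ∀ i : ℤ, Subsingleton (R'.H.obj (X⟦i⟧) ⊗ R'.H.obj ((Xᘁ : C)⟦-i⟧) :
      ModuleCat.{w'} E') := fun i =>
    tensor_subsingleton_left ((bet_eq_zero_iff R' X i).1 (h0 i))
  have h2 : Subsingleton (DirectSum ℤ (fun i : ℤ =>
      (R'.H.obj (X⟦i⟧) ⊗ R'.H.obj ((Xᘁ : C)⟦-i⟧) : ModuleCat.{w'} E'))) := by
    constructor
    intro x y
    ext i
    have := h1 i
    exact Subsingleton.elim _ _
  exact (R'.kunneth X (Xᘁ)).2.subsingleton

end

end Run7.h822.MT
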