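import Pool.Agent.Run7.h822.MT.Bound
import Pool.Agent.Run7.h822.MT.Defs

/-!
# The total dimension of the cohomology of an object of the heart
-/

set_option autoImplicit false
set_option linter.unusedSectionVars false
set_option linter.unusedSimpArgs false
set_option backward.isDefEq.respectTransparency false
set_option backward.defeqAttrib.useBackward true

open CategoryTheory Limits MonoidalCategory Pretriangulated Triangulated TensorProduct

namespace Run7.h822.MT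

open Pool.Agent.Y116.MT Pool.Agent.V1178.MT

universe v u w w'

open Functor.LaxMonoidal

/-- Exponential growth beats linear growth. -/
lemma pow_trick {D n B : ℕ} (h : ∀ N : ℕ, D ^ N ≤ (2 * (N * B) + 1) * n ^ N) : D ≤ n := by
  by_contra hD
  push Not at hD
  rcases Nat.eq_zero_or_pos n with rfl | hn
  · have := h 1
    simp only [pow_one, mul_zero, Nat.le_zero] at this
    omega
  · have hn' : (0 : ℝ) < n := by exact_mod_cast hn
    have hr : (1 : ℝ) < ((n : ℝ) + 1) / n := by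
      rw [lt_div_iff₀ hn']
      linarith
    have h0 := tendsto_pow_const_div_const_pow_of_one_lt 0 hr
    have h1 := tendsto_pow_const_div_const_pow_of_one_lt 1 hr
    have h2 : Filter.Tendsto (fun N : ℕ => 2 * (B : ℝ) * ((N : ℝ) ^ 1 / (((n : ℝ) + 1) / n) ^ N) +
        (N : ℝ) ^ 0 / (((n : ℝ) + 1) / n) ^ N) Filter.atTop (nhds 0) := by
      have := (h1.const_mul (2 * (B : ℝ))).add h0
      simpa using this
    obtain ⟨N, hN⟩ := (h2.eventually (gt_mem_nhds (show (0 : ℝ) < 1 by norm_num))).exists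
    have hpos : (0 : ℝ) < (((n : ℝ) + 1) / n) ^ N := by positivity
    have h3 : (2 * (N * B : ℝ) + 1) < (((n : ℝ) + 1) / n) ^ N := by
      have h4 : 2 * (B : ℝ) * ((N : ℝ) ^ 1 / (((n : ℝ) + 1) / n) ^ N) +
        (N : ℝ) ^ 0 / (((n : ℝ) + 1) / n) ^ N = (2 * (N * B : ℝ) + 1) / (((n : ℝ) + 1) / n) ^ N := by
        rw [pow_one, pow_zero]
        ring
      rw [h4, div_lt_one hpos] at hN
      exact hN
    have h5 : ((n : ℝ) + 1) ^ N ≤ (2 * (N * B : ℝ) + 1) * (n : ℝ) ^ N := by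
      have h6 : (n + 1) ^ N ≤ (2 * (N * B) + 1) * n ^ N :=
        (Nat.pow_le_pow_left hD N).trans (h N)
      exact_mod_cast h6
    rw [div_pow, lt_div_iff₀ (by positivity)] at h3
    linarith

section

variable {C : Type u} [Category.{v} C] [Preadditive C] [HasZeroObject C] [HasShift C ℤ]
  [∀ n : ℤ, (shiftFunctor C n).Additive] [Pretriangulated C] [MonoidalCategory C]
  [SymmetricCategory C] [TensorTriangulated C] {E : Type w} [Field E] (R : Realisation C E)

lemma bet_iso {X Y : C} (e : X ≅ Y) (i : ℤ) : bet R X i = bet R Y i :=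
  LinearEquiv.finrank_eq (R.H.mapIso ((shiftFunctor C i).mapIso e)).toLinearEquiv

lemma bet_shift (X : C) (a i j : ℤ) (h : a + i = j) : bet R (X⟦a⟧) i = bet R X j :=
  LinearEquiv.finrank_eq (R.H.mapIso ((shiftFunctorAdd' C a i j h).app X).symm).toLinearEquiv

lemma bet_zero (X : C) : bet R X 0 = Module.finrank E (R.H.obj X) :=
  LinearEquiv.finrank_eq (R.H.mapIso ((shiftFunctorZero C ℤ).app X)).toLinearEquiv

lemma bet_eq_zero_iff (X : C) (i : ℤ) : bet R X i = 0 ↔ IsZero (R.H.obj (X⟦i⟧)) := by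
  rw [ModuleCat.isZero_iff_subsingleton, bet, Module.finrank_zero_iff]

lemma bet_bounded (X : C) : ∃ N : ℕ, ∀ i : ℤ, N < i.natAbs → bet R X i = 0 := by
  obtain ⟨N, hN⟩ := R.bounded X
  exact ⟨N, fun i hi => (bet_eq_zero_iff R X i).2 (hN i hi)⟩

lemma bet_tensor_ge (X Y : C) (m : ℤ) (S : Finset ℤ) :
    ∑ i ∈ S, bet R X i * bet R Y (m - i) ≤ bet R (X ⊗ Y) m := by
  classical
  have h1 : bet R (X ⊗ Y) m = Module.finrank E (R.H.obj (X ⊗ Y⟦m⟧)) :=
    (LinearEquiv.finrank_eq (R.H.mapIso (rShift X Y m)).toLinearEquiv).symm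
  have h2 : ∀ i : ℤ, bet R X i * bet R Y (m - i) = Module.finrank E
      (R.H.obj (X⟦i⟧) ⊗ R.H.obj (Y⟦m⟧⟦-i⟧) : ModuleCat.{w} E) := by
    intro i
    have h3 : Module.finrank E (R.H.obj (X⟦i⟧) ⊗ R.H.obj (Y⟦m⟧⟦-i⟧) : ModuleCat.{w} E) =
      Module.finrank E (R.H.obj (X⟦i⟧)) * Module.finrank E (R.H.obj (Y⟦m⟧⟦-i⟧)) :=
      Module.finrank_tensorProduct
    rw [h3, ← bet_shift R Y m (-i) (m - i) (by ring)]
    rfl
  rw [h1]
  have hfin : ∀ i : ℤ, Module.Finite E
      (R.H.obj (X⟦i⟧) ⊗ R.H.obj (Y⟦m⟧⟦-i⟧) : ModuleCat.{w} E) := fun i =>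
    inferInstanceAs (Module.Finite E ((R.H.obj (X⟦i⟧)) ⊗[E] (R.H.obj (Y⟦m⟧⟦-i⟧))))
  have hfin' : ∀ i : ((S : Set ℤ) : Type), Module.Finite E
      (R.H.obj (X⟦i.val⟧) ⊗ R.H.obj (Y⟦m⟧⟦-i.val⟧) : ModuleCat.{w} E) := fun i => hfin i.val
  have h4 : ∑ i ∈ S, bet R X i * bet R Y (m - i) = Module.finrank E
      (∀ i : ((S : Set ℤ) : Type), (R.H.obj (X⟦i.val⟧) ⊗ R.H.obj (Y⟦m⟧⟦-i.val⟧) : ModuleCat.{w} E)) := by
    rw [Module.finrank_pi_fintype]
    rw [Finset.sum_congr rfl (fun i _ => h2 i)]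
    exact (Finset.sum_coe_sort S (fun i : ℤ => Module.finrank E
      (R.H.obj (X⟦i⟧) ⊗ R.H.obj (Y⟦m⟧⟦-i⟧) : ModuleCat.{w} E))).symm
  rw [h4]
  refine LinearMap.finrank_le_finrank_of_injective (f := (kunnethMap R.H X (Y⟦m⟧)) ∘ₗ
    (DirectSum.lmk E ℤ (fun i : ℤ =>
      (R.H.obj (X⟦i⟧) ⊗ R.H.obj (Y⟦m⟧⟦-i⟧) : ModuleCat.{w} E)) S)) ?_
  rw [LinearMap.coe_comp]
  exact (R.kunneth X (Y⟦m⟧)).1.comp (DirectSum.mk_injective S)

/-- The sum of the dimensions of the cohomology in the degrees `-M, ..., M`. -/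
noncomputable def tot (X : C) (M : ℕ) : ℕ := ∑ i ∈ Finset.Icc (-(M : ℤ)) M, bet R X i

lemma tot_tensor_ge (X Y : C) (M M' : ℕ) : tot R X M * tot R Y M' ≤ tot R (X ⊗ Y) (M + M') := by
  have h1 : tot R X M * tot R Y M' ≤ ∑ m ∈ Finset.Icc (-((M + M' : ℕ) : ℤ)) ((M + M' : ℕ) : ℤ),
      ∑ i ∈ Finset.Icc (-(M : ℤ)) M, bet R X i * bet R Y (m - i) := by
    rw [Finset.sum_comm, tot, Finset.sum_mul]
    refine Finset.sum_le_sum (fun i hi => ?_)
    rw [← Finset.mul_sum]
    refine Nat.mul_le_mul_left _ ?_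
    rw [tot]
    refine le_of_eq_of_le ?_ (Finset.sum_le_sum_of_subset (f := fun m => bet R Y (m - i))
      (s := (Finset.Icc (-(M' : ℤ)) M').map (addRightEmbedding i)) ?_)
    · rw [Finset.sum_map]
      refine Finset.sum_congr rfl (fun j _ => ?_)
      simp
    · intro m hm
      rw [Finset.mem_map] at hm
      obtain ⟨j, hj, rfl⟩ := hm
      rw [Finset.mem_Icc] at hi hj ⊢
      simp only [addRightEmbedding_apply]
      push_cast
      omega
  exact h1.trans (Finset.sum_le_sum fun m _ => bet_tensor_ge R X Y m _)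

lemma tot_pw_ge {X : C} {B : ℕ} (N : ℕ) : tot R X B ^ N ≤ tot R (pw (𝟙_ C) X N) (N * B) := by
  induction N with
  | zero =>
    rw [pow_zero]
    have h1 : tot R (𝟙_ C) (0 * B) = Module.finrank E (R.H.obj (𝟙_ C)) := by
      rw [tot, zero_mul, Nat.cast_zero, neg_zero, Finset.Icc_self, Finset.sum_singleton, bet_zero]
    have h2 := not_isZero_H_unit R
    rw [ModuleCat.isZero_iff_subsingleton, not_subsingleton_iff_nontrivial] at h2
    have h3 : 0 < Module.finrank E (R.H.obj (𝟙_ C)) := Module.finrank_pos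
    change 1 ≤ tot R (𝟙_ C) (0 * B)
    omega
  | succ N ih =>
    calc tot R X B ^ (N + 1) = tot R X B ^ N * tot R X B := pow_succ _ _
      _ ≤ tot R (pw (𝟙_ C) X N) (N * B) * tot R X B := Nat.mul_le_mul_right _ ih
      _ ≤ tot R (pw (𝟙_ C) X N ⊗ X) (N * B + B) := tot_tensor_ge R _ _ _ _
      _ = _ := by rw [Nat.succ_mul]

lemma finrank_pw {X : C} (h : ∀ n, R.Deg (pw (𝟙_ C) X n) 0) (N : ℕ) :
    Module.finrank E (R.H.obj (pw (𝟙_ C) X N)) = Module.finrank E (R.H.obj X) ^ N := by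
  induction N with
  | zero =>
    rw [pow_zero]
    have h1 : Module.finrank E (R.H.obj (𝟙_ C)) = Module.finrank E E :=
      (LinearEquiv.finrank_eq (asIso (Functor.LaxMonoidal.ε R.H)).toLinearEquiv).symm
    rw [Module.finrank_self] at h1
    exact h1
  | succ N ih =>
    have h1 := (h N).isIso_mu X
    have h2 : Module.finrank E (R.H.obj (pw (𝟙_ C) X N ⊗ X)) = Module.finrank E
      (R.H.obj (pw (𝟙_ C) X N) ⊗ R.H.obj X : ModuleCat.{w} E) :=
      (LinearEquiv.finrank_eq (asIso (μ R.H (pw (𝟙_ C) X N) X)).toLinearEquiv).symm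
    have h3 : Module.finrank E (R.H.obj (pw (𝟙_ C) X N) ⊗ R.H.obj X : ModuleCat.{w} E) =
      Module.finrank E (R.H.obj (pw (𝟙_ C) X N)) * Module.finrank E (R.H.obj X) :=
      Module.finrank_tensorProduct
    change Module.finrank E (R.H.obj (pw (𝟙_ C) X N ⊗ X)) = _
    rw [h2, h3, ih, pow_succ]

end

section Heart

variable {C : Type u} [Category.{v} C] [Preadditive C] [HasZeroObject C] [HasShift C ℤ]
  [∀ n : ℤ, (shiftFunctor C n).Additive] [Pretriangulated C] [MonoidalCategory C]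
  [SymmetricCategory C] [TensorTriangulated C] [MonoidalPreadditive C] [RightRigidCategory C]
  {E : Type w} [Field E] {E' : Type w'} [Field E'] {t : TStructure C} {R : Realisation C E}
  (R' : Realisation C E')
  (ht : TensorCompat t) (he : TExact t R) (hu : Hrt t (𝟙_ C))
  (hid : ∀ e : 𝟙_ C ⟶ 𝟙_ C, e ≫ e = e → e = 0 ∨ e = 𝟙 _)

include ht he hu hid in
/-- The total dimension of the cohomology of an object of the heart in another realisation is
bounded by the dimension of the object. -/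
theorem tot_le [IsTriangulated C] [CharZero E'] {Z : C} (hZ : Hrt t Z) (B : ℕ) :
    tot R' Z B ≤ Module.finrank E (R.H.obj Z) := by
  apply pow_trick (B := B)
  intro N
  refine (tot_pw_ge R' N).trans ?_
  have h0 := fun n => pw_hrt ht hu hZ n
  rw [tot]
  calc ∑ i ∈ Finset.Icc (-((N * B : ℕ) : ℤ)) ((N * B : ℕ) : ℤ), bet R' (pw (𝟙_ C) Z N) i
      ≤ ∑ _i ∈ Finset.Icc (-((N * B : ℕ) : ℤ)) ((N * B : ℕ) : ℤ),
        Module.finrank E (R.H.obj Z) ^ N := by
        refine Finset.sum_le_sum fun i _ => ?_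
        rw [← finrank_pw R (fun n => he.deg (h0 n)) N]
        exact finrank_le R' ht he hu hid (h0 N) i
    _ = _ := by
        rw [Finset.sum_const, Int.card_Icc, smul_eq_mul]
        congr 1
        omega

end Heart

end Run7.h822.MT
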