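import Pool.Agent.Run7.h822.MT.Exist
import Pool.Agent.Run7.h822.MT.Defs2

/-!
# Motivic t-structures for two realisations
-/

set_option autoImplicit false
set_option linter.unusedSectionVars false
set_option linter.unusedSimpArgs false
set_option backward.isDefEq.respectTransparency false
set_option backward.defeqAttrib.useBackward true

open CategoryTheory Limits MonoidalCategory Pretriangulated Triangulated TensorProduct

namespace Run7.h822.MT

open Pool.Agent.Y116.MT Pool.Agent.V1178.MT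

universe v u w w'

open Functor.LaxMonoidal

section

variable {C : Type u} [Category.{v} C] [Preadditive C] [HasZeroObject C] [HasShift C ℤ]
  [∀ n : ℤ, (shiftFunctor C n).Additive] [Pretriangulated C] [MonoidalCategory C]
  [SymmetricCategory C] [TensorTriangulated C] [MonoidalPreadditive C] [RightRigidCategory C]
  [IsTriangulated C] {E : Type w} [Field E] [CharZero E] {R : Realisation C E}
  {t : TStructure C} {E' : Type w'} [Field E'] [CharZero E'] {R' : Realisation C E'}
  {t' : TStructure C}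

omit [CharZero E] in
lemma tot_shift_le (Y : C) (a : ℤ) (M : ℕ) : tot R Y M ≤ tot R (Y⟦a⟧) (M + a.natAbs) := by
  have h1 : tot R Y M = ∑ i ∈ (Finset.Icc (-(M : ℤ)) M).map (addRightEmbedding (-a)),
      bet R (Y⟦a⟧) i := by
    rw [Finset.sum_map, tot]
    refine Finset.sum_congr rfl (fun i _ => ?_)
    rw [bet_shift R Y a ((addRightEmbedding (-a)) i) i (by simp)]
  rw [h1, tot]
  apply Finset.sum_le_sum_of_subset
  intro x hx
  rw [Finset.mem_map] at hx
  obtain ⟨i, hi, rfl⟩ := hx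
  rw [Finset.mem_Icc] at hi ⊢
  simp only [addRightEmbedding_apply]
  rw [Nat.cast_add]
  omega

variable (hR : CE t R) (hR' : CE t' R') (ht : TensorCompat t) (ht' : TensorCompat t')
  (hu : Hrt t (𝟙_ C)) (hu' : Hrt t' (𝟙_ C))
  (hid : ∀ e : 𝟙_ C ⟶ 𝟙_ C, e ≫ e = e → e = 0 ∨ e = 𝟙 _)

include hR ht hu hid in
omit [CharZero E] in
/-- The total dimension of an object in one degree. -/
lemma tot_conc {Y : C} {q : ℤ} (hY : Conc t q Y) (M : ℕ) : tot R' Y M ≤ bet R Y q :=
  (tot_shift_le Y q M).trans (tot_le R' ht hR.ex hu hid hY.hrt (M + q.natAbs))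

include hR hR' ht ht' hu hu' hid in
/-- The pieces for `t'` of an object of the heart of `t` are in the heart of `t`. -/
theorem deg_cross {X : C} (hX : Hrt t X) (j : ℤ) : R.Deg ((pc t' j).obj X) 0 := by
  obtain ⟨N, hN1, hN2⟩ := bounded_t hR' X
  by_cases hj : j ∈ Finset.Icc (-(N : ℤ)) N
  swap
  · apply deg_of_isZero R
    apply pc_isZero hR'
    rw [bet_eq_zero_iff]
    rw [Finset.mem_Icc, not_and_or, not_le, not_le] at hj
    rcases hj with hj | hj
    · exact hR'.ex.isGE hN2 j hj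
    · exact hR'.ex.isLE hN1 j hj
  intro i hi
  rw [← bet_eq_zero_iff]
  let M : ℕ := i.natAbs
  have h1 : bet R X 0 ≤ ∑ q ∈ Finset.Icc (-(N : ℤ)) N, bet R ((pc t' q).obj X) 0 :=
    bet_le_sum R X (-N) N hN2 hN1 (by omega) 0
  have h2 : ∀ q, tot R ((pc t' q).obj X) M ≤ bet R' X q := by
    intro q
    rw [← bet_pc hR' X q]
    exact tot_conc hR' ht' hu' hid (pc_conc q X) M
  have h3 : tot R' X N ≤ bet R X 0 := by
    rw [bet_zero]
    exact tot_le R' ht hR.ex hu hid hX N
  have h4 : ∀ q, bet R ((pc t' q).obj X) 0 ≤ tot R ((pc t' q).obj X) M := fun q =>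
    Finset.single_le_sum (f := fun i => bet R ((pc t' q).obj X) i) (fun _ _ => Nat.zero_le _)
      (by rw [Finset.mem_Icc]; omega)
  have h5 : bet R ((pc t' j).obj X) 0 + bet R ((pc t' j).obj X) i ≤
      tot R ((pc t' j).obj X) M := by
    rw [← Finset.sum_pair (f := fun i => bet R ((pc t' j).obj X) i) (Ne.symm hi)]
    apply Finset.sum_le_sum_of_subset
    intro x hx
    rw [Finset.mem_insert, Finset.mem_singleton] at hx
    rw [Finset.mem_Icc]
    rcases hx with rfl | rfl <;> omega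
  have h6 : ∑ q ∈ Finset.Icc (-(N : ℤ)) N, tot R ((pc t' q).obj X) M ≤ tot R' X N :=
    Finset.sum_le_sum fun q _ => h2 q
  have h7 : (∑ q ∈ Finset.Icc (-(N : ℤ)) N, bet R ((pc t' q).obj X) 0) +
      bet R ((pc t' j).obj X) i ≤ ∑ q ∈ Finset.Icc (-(N : ℤ)) N, tot R ((pc t' q).obj X) M := by
    rw [← Finset.add_sum_erase _ _ hj, ← Finset.add_sum_erase _ (fun q => tot R _ M) hj]
    have h8 : ∑ x ∈ (Finset.Icc (-(N : ℤ)) N).erase j, bet R ((pc t' x).obj X) 0 ≤
      ∑ x ∈ (Finset.Icc (-(N : ℤ)) N).erase j, tot R ((pc t' x).obj X) M :=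
      Finset.sum_le_sum fun q _ => h4 q
    omega
  omega

include hR hR' ht ht' hu hu' hid in
/-- The truncations for `t'` preserve the heart of `t`. -/
theorem trunc_cross {X A B : C} {f : A ⟶ X} {g : X ⟶ B} {h : B ⟶ A⟦(1 : ℤ)⟧}
    (hT : Triangle.mk f g h ∈ distTriang C) (hX : Hrt t X) (n : ℤ) (hA : t'.IsLE A n)
    (hB : t'.IsGE B (n + 1)) : Hrt t A ∧ Hrt t B := by
  have key : ∀ Y : C, (∀ j, R.Deg ((pc t' j).obj Y) 0) → Hrt t Y := by
    intro Y hY
    apply hR.conc
    intro i hi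
    obtain ⟨N, hN1, hN2⟩ := bounded_t hR' Y
    rw [← bet_eq_zero_iff, ← Nat.le_zero]
    refine (bet_le_sum R Y (-N) N hN2 hN1 (by omega) i).trans (le_of_eq ?_)
    exact Finset.sum_eq_zero fun q _ => (bet_eq_zero_iff R _ i).2 (hY q i hi)
  have hc := deg_cross hR hR' ht ht' hu hu' hid hX
  constructor
  · apply key
    intro j
    rcases le_or_gt j n with hj | hj
    · have h1 := isIso_of_coneGE hR'.ex hT hB hj
      have h2 := isIso_pc hR' f h1
      exact (hc j).iso (asIso ((pc t' j).map f)).symm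
    · apply deg_of_isZero R
      apply pc_isZero hR'
      rw [bet_eq_zero_iff]
      exact hR'.ex.isLE hA j hj
  · apply key
    intro j
    rcases le_or_gt j n with hj | hj
    · apply deg_of_isZero R
      apply pc_isZero hR'
      rw [bet_eq_zero_iff]
      exact hR'.ex.isGE hB j (by omega)
    · have h0 : t'.IsLE A (n + 1 - 1) := by rwa [add_sub_cancel_right]
      have h1 := isIso_of_fiberLE hR'.ex hT h0 (i := j) (by omega)
      have h2 := isIso_pc hR' g h1
      exact (hc j).iso (asIso ((pc t' j).map g))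

include hR hR' ht ht' hu hu' hid in
/-- The total Betti numbers agree. -/
theorem tot_cross (X : C) : ∑ᶠ i : ℤ, bet R X i = ∑ᶠ i : ℤ, bet R' X i := by
  have key : ∀ {F : Type w} [Field F] [CharZero F] {F' : Type w'} [Field F'] [CharZero F']
      {S : Realisation C F} {S' : Realisation C F'} {s : TStructure C}, CE s S → TensorCompat s →
      Hrt s (𝟙_ C) → ∀ (N : ℕ), (∀ i : ℤ, N < i.natAbs → bet S X i = 0) →
      tot S' X N ≤ tot S X N := by
    intro F _ _ F' _ _ S S' s hS hs hsu N hN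
    have h1 : s.IsLE X N := isLE_of hS.cons hS.ex fun i hi =>
      (bet_eq_zero_iff S X i).1 (hN i (by omega))
    have h2 : s.IsGE X (-N) := isGE_of hS.cons hS.ex fun i hi =>
      (bet_eq_zero_iff S X i).1 (hN i (by omega))
    calc tot S' X N ≤ ∑ i ∈ Finset.Icc (-(N : ℤ)) N, ∑ q ∈ Finset.Icc (-(N : ℤ)) N,
          bet S' ((pc s q).obj X) i := Finset.sum_le_sum fun i _ =>
            bet_le_sum S' X (-N) N h2 h1 (by omega) i
      _ = ∑ q ∈ Finset.Icc (-(N : ℤ)) N, tot S' ((pc s q).obj X) N := Finset.sum_comm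
      _ ≤ ∑ q ∈ Finset.Icc (-(N : ℤ)) N, bet S X q := Finset.sum_le_sum fun q _ => by
            rw [← bet_pc hS X q]
            exact tot_conc hS hs hsu hid (pc_conc q X) N
      _ = tot S X N := rfl
  have key' : ∀ {F : Type w'} [Field F] [CharZero F] {F' : Type w} [Field F'] [CharZero F']
      {S : Realisation C F} {S' : Realisation C F'} {s : TStructure C}, CE s S → TensorCompat s →
      Hrt s (𝟙_ C) → ∀ (N : ℕ), (∀ i : ℤ, N < i.natAbs → bet S X i = 0) →
      tot S' X N ≤ tot S X N := by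
    intro F _ _ F' _ _ S S' s hS hs hsu N hN
    have h1 : s.IsLE X N := isLE_of hS.cons hS.ex fun i hi =>
      (bet_eq_zero_iff S X i).1 (hN i (by omega))
    have h2 : s.IsGE X (-N) := isGE_of hS.cons hS.ex fun i hi =>
      (bet_eq_zero_iff S X i).1 (hN i (by omega))
    calc tot S' X N ≤ ∑ i ∈ Finset.Icc (-(N : ℤ)) N, ∑ q ∈ Finset.Icc (-(N : ℤ)) N,
          bet S' ((pc s q).obj X) i := Finset.sum_le_sum fun i _ =>
            bet_le_sum S' X (-N) N h2 h1 (by omega) i
      _ = ∑ q ∈ Finset.Icc (-(N : ℤ)) N, tot S' ((pc s q).obj X) N := Finset.sum_comm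
      _ ≤ ∑ q ∈ Finset.Icc (-(N : ℤ)) N, bet S X q := Finset.sum_le_sum fun q _ => by
            rw [← bet_pc hS X q]
            exact tot_conc hS hs hsu hid (pc_conc q X) N
      _ = tot S X N := rfl
  obtain ⟨N1, hN1⟩ := bet_bounded R X
  obtain ⟨N2, hN2⟩ := bet_bounded R' X
  let N := max N1 N2
  have h1 : ∀ i : ℤ, N < i.natAbs → bet R X i = 0 := fun i hi =>
    hN1 i (lt_of_le_of_lt (le_max_left _ _) hi)
  have h2 : ∀ i : ℤ, N < i.natAbs → bet R' X i = 0 := fun i hi =>
    hN2 i (lt_of_le_of_lt (le_max_right _ _) hi)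
  have e1 : ∑ᶠ i : ℤ, bet R X i = tot R X N := by
    apply finsum_eq_sum_of_support_subset
    intro i hi
    rw [Finset.coe_Icc, Set.mem_Icc]
    by_contra hc
    exact hi (h1 i (by omega))
  have e2 : ∑ᶠ i : ℤ, bet R' X i = tot R' X N := by
    apply finsum_eq_sum_of_support_subset
    intro i hi
    rw [Finset.coe_Icc, Set.mem_Icc]
    by_contra hc
    exact hi (h2 i (by omega))
  rw [e1, e2]
  exact le_antisymm (key' (S := R') (S' := R) hR' ht' hu' N h2)
    (key (S := R) (S' := R') hR ht hu N h1)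

include hR hR' ht ht' hu hu' hid in
/-- The simple objects of the heart of `t` are in one even degree for `t'`. -/
theorem simple_cross {X : C} (hX : SimpleHrt t X) : ∃ j : ℤ, Even j ∧ Conc t' j X := by
  obtain ⟨hX0, hX1, hX2⟩ := hX
  have h1 : ∃ i : ℤ, ¬ IsZero (R'.H.obj (X⟦i⟧)) := by
    by_contra hc
    push Not at hc
    exact hX1 (hR'.cons X hc)
  obtain ⟨N, hN⟩ := R'.bounded X
  obtain ⟨n, hn1, hn2⟩ := Int.exists_least_of_bdd (P := fun i : ℤ => ¬ IsZero (R'.H.obj (X⟦i⟧)))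
    ⟨-N, fun z hz => by
      by_contra hc
      exact hz (hN z (by omega))⟩ h1
  have hge : t'.IsGE X n := isGE_of hR'.cons hR'.ex fun i hi => by
    by_contra hc
    have := hn2 i hc
    omega
  obtain ⟨A, B, hA, hB, f, g, h, hT⟩ := t'.exists_triangle X n (n + 1) rfl
  have hAB := trunc_cross hR hR' ht ht' hu hu' hid hT hX0 n ⟨hA⟩ ⟨hB⟩
  refine ⟨n, ?_, ?_, hge⟩
  · rw [← Int.not_odd_iff_even]
    intro ho
    exact hn1 (isZero_odd R' ht hR.ex hu hid hX0 n ho)
  · rcases hX2 A B f g h hT hAB.1 hAB.2 with h2 | h2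
    · exfalso
      have h3 := isIso2_of_isZero1 hT h2
      have h4 : t'.IsGE B (n + 1) := ⟨hB⟩
      exact hn1 ((hR'.ex.isGE h4 n (by omega)).of_iso
        (R'.H.mapIso ((shiftFunctor C n).mapIso (asIso g))))
    · have h3 := isIso1_of_isZero3 hT h2
      have h4 : t'.IsLE A n := ⟨hA⟩
      exact @TStructure.isLE_of_iso _ _ _ _ _ _ _ t' _ _ (asIso f) n h4

include hR ht hu hid in
/-- The trace of the identity of an object of the heart. -/
theorem tr_heart {V : C} (hV : Hrt t V) :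
    tr (𝟙 V) = ((Module.finrank E (R.H.obj V) : ℕ) : ℤ) • 𝟙 (𝟙_ C) := by
  have hV0 : R.Deg V 0 := hR.ex.deg hV
  have h1 := H_trace hV0 (𝟙 V)
  rw [CategoryTheory.Functor.map_id, ModuleCat.hom_id, LinearMap.trace_id] at h1
  set n := Module.finrank E (R.H.obj V) with hn
  rw [← sub_eq_zero]
  apply faithful_heart ht hR.ex hu hid hu hu
  have h4 : Functor.LaxMonoidal.ε R.H ≫ R.H.map (tr (𝟙 V) - (n : ℤ) • 𝟙 (𝟙_ C)) ≫
      inv (Functor.LaxMonoidal.ε R.H) = 0 := by
    rw [Functor.map_sub, Functor.map_zsmul, CategoryTheory.Functor.map_id,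
      Preadditive.sub_comp, Preadditive.comp_sub, Preadditive.zsmul_comp,
      Preadditive.comp_zsmul, Category.id_comp, IsIso.hom_inv_id]
    ext
    have h5 : ((Functor.LaxMonoidal.ε R.H ≫ R.H.map (tr (𝟙 V)) ≫
      inv (Functor.LaxMonoidal.ε R.H) - (n : ℤ) • 𝟙 (𝟙_ (ModuleCat.{w} E))).hom (1 : E) : E) =
      (n : E) - (n : ℤ) • (1 : E) := by
      rw [← h1]
      rfl
    have h9 : (n : E) - (n : ℤ) • (1 : E) = 0 := by
      rw [zsmul_eq_mul, mul_one, Int.cast_natCast, sub_self]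
    rw [h9] at h5
    exact h5
  have h6 : R.H.map (tr (𝟙 V) - (n : ℤ) • 𝟙 (𝟙_ C)) ≫ inv (Functor.LaxMonoidal.ε R.H) = 0 := by
    rw [← cancel_epi (Functor.LaxMonoidal.ε R.H), h4, comp_zero]
  rw [← cancel_mono (inv (Functor.LaxMonoidal.ε R.H)), h6, zero_comp]

include hR ht hu hid in
/-- The endomorphism object of a non zero object of the heart has cohomology in degree zero. -/
theorem end_ne_zero {V : C} (hV : Hrt t V) (h0 : ¬ IsZero V) :
    ¬ IsZero (R'.H.obj (V ⊗ Vᘁ)) := by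
  intro hz
  have h1 := tr_heart hR ht hu hid hV
  have h2 : R'.H.map (tr (𝟙 V)) = 0 := by
    rw [tr, Functor.map_comp, hz.eq_of_tgt (R'.H.map (η_ V Vᘁ)) 0, zero_comp]
  rw [h1, Functor.map_zsmul, CategoryTheory.Functor.map_id] at h2
  have h3 := not_isZero_H_unit R'
  rw [ModuleCat.isZero_iff_subsingleton, not_subsingleton_iff_nontrivial] at h3
  obtain ⟨x, hx⟩ := exists_ne (0 : R'.H.obj (𝟙_ C))
  have h4 : ((Module.finrank E (R.H.obj V) : ℕ) : ℤ) • x = 0 :=
    LinearMap.congr_fun (congrArg ModuleCat.Hom.hom h2) x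
  rw [← Int.cast_smul_eq_zsmul E', smul_eq_zero] at h4
  rcases h4 with h4 | h4
  · have h5 : Module.finrank E (R.H.obj V) = 0 := by exact_mod_cast h4
    apply h0
    apply hR.cons
    intro i
    by_cases hi : i = 0
    · subst hi
      rw [← bet_eq_zero_iff, bet_zero, h5]
    · exact hR.ex.deg hV i hi
  · exact hx h4

include hR hR' ht ht' hu hu' hid in
/-- Simple objects which are self-dual up to an object in both hearts are in both hearts. -/
theorem simple_polarised {X U : C} (hX : SimpleHrt t X) (hU' : Hrt t' U)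
    (e : X ≅ Xᘁ ⊗ U) : Hrt t' X := by
  obtain ⟨j, _, hj⟩ := simple_cross hR hR' ht ht' hu hu' hid hX
  have hd : R'.Deg X j := hj.deg hR'.ex
  have hdU : R'.Deg U 0 := hR'.ex.deg hU'
  have h1 : ∀ i, bet R' X i = bet R' U 0 * bet R' (Xᘁ) i := by
    intro i
    rw [bet_iso R' (e ≪≫ β_ _ _) i, bet_deg_tensor R' hdU, sub_zero]
  have h2 : bet R' U 0 ≠ 0 := by
    intro h0
    apply hX.2.1
    apply hR'.cons
    intro i
    rw [← bet_eq_zero_iff, h1, h0, zero_mul]
  have h3 : R'.Deg (Xᘁ : C) j := by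
    intro i hi
    have h4 := h1 i
    rw [(bet_eq_zero_iff R' X i).2 (hd i hi)] at h4
    rw [← bet_eq_zero_iff]
    exact (mul_eq_zero.1 h4.symm).resolve_left h2
  have h5 : R'.Deg (X ⊗ Xᘁ) (j + j) := hd.tensor h3
  have h6 : j + j = 0 := by
    by_contra hc
    exact end_ne_zero (R' := R') hR ht hu hid hX.1 hX.2.1 ((h5 0 (Ne.symm hc)).of_iso
      (R'.H.mapIso ((shiftFunctorZero C ℤ).app _).symm))
  have h7 : j = 0 := by omega
  subst h7
  exact hj

omit [CharZero E] in
include hR in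
lemma finrank_heart {X A B : C} {f : A ⟶ X} {g : X ⟶ B} {h : B ⟶ A⟦(1 : ℤ)⟧}
    (hT : Triangle.mk f g h ∈ distTriang C) (hA : Hrt t A) (hB : Hrt t B)
    (hA0 : ¬ IsZero A) (hB0 : ¬ IsZero B) : bet R A 0 < bet R X 0 ∧ bet R B 0 < bet R X 0 := by
  have hpos : ∀ {Y : C}, Hrt t Y → ¬ IsZero Y → 0 < bet R Y 0 := by
    intro Y hY hY0
    apply Nat.pos_of_ne_zero
    intro h0
    apply hY0
    apply hR.cons
    intro i
    by_cases hi : i = 0
    · subst hi
      rw [← bet_eq_zero_iff, h0]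
    · exact hR.ex.deg hY i hi
  have hm := hmono1 R.H hT 0 (hR.ex.deg hB (0 - 1) (by omega))
  have he := hepi2 R.H hT 0 (hR.ex.deg hA (0 + 1) (by omega))
  have h1 := LinearMap.finrank_range_add_finrank_ker (R.H.map (g⟦(0 : ℤ)⟧')).hom
  have h2 : LinearMap.range (R.H.map (g⟦(0 : ℤ)⟧')).hom = ⊤ :=
    LinearMap.range_eq_top.2 ((ModuleCat.epi_iff_surjective _).1 he)
  rw [h2, finrank_top] at h1
  have h3 : LinearMap.range (R.H.map (f⟦(0 : ℤ)⟧')).hom ≤
      LinearMap.ker (R.H.map (g⟦(0 : ℤ)⟧')).hom := by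
    rintro _ ⟨x, rfl⟩
    exact hcomp R hT 0 x
  have h4 := Submodule.finrank_mono h3
  rw [LinearMap.finrank_range_of_inj ((ModuleCat.mono_iff_injective _).1 hm)] at h4
  have h5 := hpos hA hA0
  have h6 := hpos hB hB0
  simp only [bet] at *
  omega

include hR hR' ht ht' hu hu' hid in
/-- If the simple objects are self-dual up to objects in both hearts, the t-structures agree. -/
theorem eq_of_polarised (hp : ∀ X, SimpleHrt t X → ∃ U : C, Hrt t' U ∧ Nonempty (X ≅ Xᘁ ⊗ U))
    (X : C) (n : ℤ) : (t.le n X ↔ t'.le n X) ∧ (t.ge n X ↔ t'.ge n X) := by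
  have key : ∀ (d : ℕ) (V : C), Hrt t V → bet R V 0 ≤ d → R'.Deg V 0 := by
    intro d
    induction d with
    | zero =>
      intro V hV hd
      apply deg_of_isZero R'
      apply hR.cons
      intro i
      by_cases hi : i = 0
      · subst hi
        rw [← bet_eq_zero_iff]
        omega
      · exact hR.ex.deg hV i hi
    | succ d ih =>
      intro V hV hd
      by_cases hV0 : IsZero V
      · exact deg_of_isZero R' hV0 0
      by_cases hs : SimpleHrt t V
      · obtain ⟨U, hU, ⟨e⟩⟩ := hp V hs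
        exact hR'.ex.deg (simple_polarised hR hR' ht ht' hu hu' hid hs hU e)
      · have h1 : ∃ (A B : C) (f : A ⟶ V) (g : V ⟶ B) (h : B ⟶ A⟦(1 : ℤ)⟧),
            Triangle.mk f g h ∈ distTriang C ∧ Hrt t A ∧ Hrt t B ∧ ¬ IsZero A ∧ ¬ IsZero B := by
          by_contra hc
          push Not at hc
          apply hs
          refine ⟨hV, hV0, fun A B f g h hT hA hB => ?_⟩
          by_cases hA0 : IsZero A
          · exact Or.inl hA0
          · exact Or.inr (hc A B f g h hT hA hB hA0)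
        obtain ⟨A, B, f, g, h, hT, hA, hB, hA0, hB0⟩ := h1
        have h2 := finrank_heart hR hT hA hB hA0 hB0
        intro i hi
        exact hz2 R'.H hT i (ih A hA (by omega) i hi) (ih B hB (by omega) i hi)
  have hG : ∀ Y, Good t R' Y := by
    intro Y q i hi
    have h1 := key _ (((pc t q).obj Y)⟦q⟧) (pc_conc q Y).hrt le_rfl (i - q) (by omega)
    exact h1.of_iso (R'.H.mapIso ((shiftFunctorAdd' C q (i - q) i (by omega)).app _))
  have he := exact_of_good R' hR ht hu hid hG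
  refine ⟨⟨fun hX => ?_, fun hX => ?_⟩, ⟨fun hX => ?_, fun hX => ?_⟩⟩
  · exact (isLE_of hR'.cons hR'.ex fun i hi => he.isLE ⟨hX⟩ i hi).le
  · exact (isLE_of hR'.cons he fun i hi => hR'.ex.isLE ⟨hX⟩ i hi).le
  · exact (isGE_of hR'.cons hR'.ex fun i hi => he.isGE ⟨hX⟩ i hi).ge
  · exact (isGE_of hR'.cons he fun i hi => hR'.ex.isGE ⟨hX⟩ i hi).ge

end

end Run7.h822.MT
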