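import Pool.Agent.Run7.h822.MT.Sgn

/-!
# Signed symmetrizers of vector spaces
-/

set_option autoImplicit false
set_option linter.unusedSectionVars false
set_option linter.unusedSimpArgs false
set_option backward.isDefEq.respectTransparency false
set_option backward.defeqAttrib.useBackward true

open CategoryTheory Limits MonoidalCategory TensorProduct

namespace Run7.h822.MT

open Pool.Agent.Y116.MT Pool.Agent.V1178.MT

universe v u w v' u'

open Functor.LaxMonoidal

section Lax

variable {C : Type u} [Category.{v} C] [MonoidalCategory C] [SymmetricCategory C]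
  {D : Type u'} [Category.{v'} D] [MonoidalCategory D] [SymmetricCategory D]
  (H : C ⥤ D) [H.LaxBraided] (X Z : C)
  [Preadditive C] [Preadditive D] [MonoidalPreadditive D] [H.Additive]

lemma asym_lax (s : ℤ) (n : ℕ) :
    asym s (H.obj X) (H.obj Z) n ≫ kap H X Z n = kap H X Z n ≫ H.map (asym s X Z n) := by
  induction n with
  | zero => simp [asym, kap]
  | succ n ih =>
    simp only [asym, Preadditive.sum_comp, Functor.map_sum, Preadditive.comp_sum]
    refine Finset.sum_congr rfl (fun i _ => ?_)
    rw [Functor.map_zsmul, Preadditive.zsmul_comp, Preadditive.comp_zsmul, Functor.map_comp,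
      ← Category.assoc (kap H X Z (n + 1)), ← mv_lax]
    have h3 : (asym s (H.obj X) (H.obj Z) n ▷ H.obj Z) ≫ kap H X Z (n + 1) =
          kap H X Z (n + 1) ≫ H.map (asym s X Z n ▷ Z) := by
        have h4 : kap H X Z (n + 1) = (kap H X Z n ▷ H.obj Z) ≫
            μ H (pw X Z n) Z := rfl
        rw [h4, ← comp_whiskerRight_assoc, ih, comp_whiskerRight_assoc, μ_natural_left,
          Category.assoc]
    rw [Category.assoc, Category.assoc, h3]

lemma asym_zero_of_lax (s : ℤ) (n : ℕ) [Mono (kap H X Z n)] (h : asym s X Z n = 0) :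
    asym s (H.obj X) (H.obj Z) n = 0 := by
  rw [← cancel_mono (kap H X Z n), asym_lax, h, Functor.map_zero, comp_zero, zero_comp]

end Lax

section

variable {E : Type w} [Field E] (X V : ModuleCat.{w} E)

lemma asym_ten_succ (s : ℤ) (x : X) (n : ℕ) (v : Fin (n + 1) → V) :
    (asym s X V (n + 1)) (ten X V x (n + 1) v) =
      ∑ i : Fin (n + 1), (s ^ (n + i.val)) •
        (((asym s X V n) (ten X V x n (i.removeNth v))) ⊗ₜ[E] (v i) :
          (pw X V n ⊗ V : ModuleCat.{w} E)) := by
  have h3 := ModuleCat.hom_sum (fun i : Fin (n + 1) =>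
    (s ^ (n + i.val)) • (mv X V n i ≫ (asym s X V n ▷ V))) Finset.univ
  have h1 : (asym s X V (n + 1)) (ten X V x (n + 1) v) =
      ∑ i : Fin (n + 1), (s ^ (n + i.val)) •
        ((asym s X V n ▷ V) ((mv X V n i) (ten X V x (n + 1) v))) :=
    (LinearMap.congr_fun h3 _).trans (by rw [LinearMap.sum_apply]; rfl)
  rw [h1]
  refine Finset.sum_congr rfl (fun i _ => ?_)
  rw [mv_apply]
  rfl

/-- Contraction of the last factor with a functional. -/
noncomputable def ctr (n : ℕ) (φ : V →ₗ[E] E) :
    (pw X V (n + 1) : ModuleCat.{w} E) →ₗ[E] (pw X V n : ModuleCat.{w} E) :=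
  (TensorProduct.rid E (pw X V n : ModuleCat.{w} E)).toLinearMap ∘ₗ
    (LinearMap.lTensor (pw X V n : ModuleCat.{w} E) φ)

lemma ctr_tmul (n : ℕ) (φ : V →ₗ[E] E) (a : (pw X V n : ModuleCat.{w} E)) (b : V) :
    ctr X V n φ (a ⊗ₜ[E] b : (pw X V n ⊗ V : ModuleCat.{w} E)) = φ b • a := by
  change (TensorProduct.rid E _) ((LinearMap.lTensor _ φ) (a ⊗ₜ[E] b)) = _
  rw [LinearMap.lTensor_tmul, TensorProduct.rid_tmul]

lemma asym_alt_ne_zero (x : X) (hx : x ≠ 0) (n : ℕ) : ∀ (v : Fin n → V),
    LinearIndependent E v → (asym (-1) X V n) (ten X V x n v) ≠ 0 := by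
  induction n with
  | zero => intro v _; exact hx
  | succ n ih =>
    intro v hv h0
    have hinj : Function.Injective (Fintype.linearCombination E v) :=
      hv.fintypeLinearCombination_injective
    obtain ⟨g, hg⟩ := LinearMap.exists_leftInverse_of_injective _ (LinearMap.ker_eq_bot.2 hinj)
    let φ : V →ₗ[E] E := LinearMap.proj (Fin.last n) ∘ₗ g
    have hφ : ∀ i, φ (v i) = if i = Fin.last n then 1 else 0 := by
      intro i
      have h1 : (Fintype.linearCombination E v) (Pi.single i 1) = v i := by
        rw [Fintype.linearCombination_apply_single, one_smul]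
      have h2 := LinearMap.congr_fun hg (Pi.single i (1 : E))
      rw [LinearMap.comp_apply, h1] at h2
      change g (v i) (Fin.last n) = _
      rw [h2]
      by_cases hi : i = Fin.last n
      · subst hi
        simp
      · rw [if_neg hi]
        simp [Pi.single_apply, Ne.symm hi]
    have h1 := congrArg (ctr X V n φ) h0
    rw [asym_ten_succ, map_sum, map_zero] at h1
    rw [Finset.sum_eq_single (Fin.last n)] at h1
    · rw [map_zsmul, ctr_tmul, hφ, if_pos rfl, one_smul, Fin.val_last,
        Even.neg_one_pow ⟨n, rfl⟩, one_zsmul] at h1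
      refine ih _ ?_ h1
      rw [Fin.removeNth_last]
      exact hv.comp _ (Fin.castSucc_injective n)
    · intro i _ hi
      rw [map_zsmul, ctr_tmul, hφ, if_neg hi, zero_smul, smul_zero]
    · intro h
      exact absurd (Finset.mem_univ _) h

lemma finrank_lt_of_alt [Module.Finite E V] (hX : ¬ IsZero X) (n : ℕ)
    (h : asym (-1) X V n = 0) : Module.finrank E V < n := by
  by_contra hn
  push Not at hn
  have hX' : Nontrivial X := by
    rwa [ModuleCat.isZero_iff_subsingleton, not_subsingleton_iff_nontrivial] at hX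
  obtain ⟨x, hx⟩ := exists_ne (0 : X)
  let b := Module.finBasis E V
  let v : Fin n → V := fun i => b (Fin.castLE hn i)
  have hv : LinearIndependent E v := b.linearIndependent.comp _ (Fin.castLE_injective hn)
  apply asym_alt_ne_zero X V x hx n v hv
  rw [h]
  rfl

lemma asym_sym_const (x : X) (v : V) (n : ℕ) :
    (asym 1 X V n) (ten X V x n fun _ => v) = (n.factorial : ℤ) • ten X V x n fun _ => v := by
  induction n with
  | zero =>
    rw [Nat.factorial_zero, Nat.cast_one, one_zsmul]
    rfl
  | succ n ih =>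
    have h1 : ∀ i : Fin (n + 1), (i.removeNth (fun _ : Fin (n + 1) => v)) = fun _ => v := by
      intro i
      rfl
    rw [asym_ten_succ]
    have h2 : ∀ i : Fin (n + 1), ((1 : ℤ) ^ (n + i.val)) •
        (((asym 1 X V n) (ten X V x n (i.removeNth (fun _ : Fin (n + 1) => v)))) ⊗ₜ[E] v :
          (pw X V n ⊗ V : ModuleCat.{w} E)) =
        (n.factorial : ℤ) • (ten X V x (n + 1) fun _ => v) := by
      intro i
      rw [one_pow, one_zsmul, h1, ih]
      have h3 : ((n.factorial : ℤ) • (ten X V x n fun _ => v)) ⊗ₜ[E] v =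
        (n.factorial : ℤ) • ((ten X V x n fun _ => v) ⊗ₜ[E] v) :=
        (TensorProduct.smul_tmul' _ _ _).symm
      exact h3
    rw [Finset.sum_congr rfl (fun i _ => h2 i), Finset.sum_const, Finset.card_univ,
      Fintype.card_fin, ← natCast_zsmul, smul_smul, Nat.factorial_succ]
    push_cast
    rfl

lemma ten_const_ne_zero (x : X) (hx : x ≠ 0) (v : V) (hv : v ≠ 0) (n : ℕ) :
    (ten X V x n fun _ => v) ≠ 0 := by
  induction n with
  | zero => exact hx
  | succ n ih =>
    intro h0
    obtain ⟨φ, hφ⟩ := Module.Projective.exists_dual_ne_zero E hv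
    have h1 := congrArg (ctr X V n φ) h0
    have h2 : ten X V x (n + 1) (fun _ => v) = ((ten X V x n fun _ => v) ⊗ₜ[E] v :
      (pw X V n ⊗ V : ModuleCat.{w} E)) := rfl
    rw [h2, ctr_tmul, map_zero, smul_eq_zero] at h1
    exact h1.elim hφ ih

lemma isZero_of_sym [CharZero E] (hX : ¬ IsZero X) (n : ℕ) (h : asym 1 X V n = 0) : IsZero V := by
  have hX' : Nontrivial X := by
    rwa [ModuleCat.isZero_iff_subsingleton, not_subsingleton_iff_nontrivial] at hX
  obtain ⟨x, hx⟩ := exists_ne (0 : X)
  rw [ModuleCat.isZero_iff_subsingleton]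
  by_contra hV
  rw [not_subsingleton_iff_nontrivial] at hV
  obtain ⟨v, hv⟩ := exists_ne (0 : V)
  have h1 := asym_sym_const X V x v n
  rw [h] at h1
  have h2 : (n.factorial : ℤ) • (ten X V x n fun _ => v) = 0 := h1.symm
  rw [← Int.cast_smul_eq_zsmul E, smul_eq_zero] at h2
  rcases h2 with h2 | h2
  · exact Nat.factorial_ne_zero n (by exact_mod_cast h2)
  · exact ten_const_ne_zero X V x hx v hv n h2

end

end Run7.h822.MT
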